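import Mathlib

set_option autoImplicit false
open Finset Function

namespace Pool.Agent.H157Z.Mono

variable {n : ℕ}

abbrev Cube (n : ℕ) := Fin n → Bool

/-- discrete derivative -/
def D (i : Fin n) (φ : Cube n → ℝ) : Cube n → ℝ :=
  fun x => φ (update x i true) - φ (update x i false)

/-- degree at most `e`, through iterated derivatives -/
def LowDeg : ℕ → (Cube n → ℝ) → Prop
  | 0, φ => ∀ i, D i φ = 0
  | e+1, φ => ∀ i, LowDeg e (D i φ)

def flp (i : Fin n) (x : Cube n) : Cube n := update x i (!x i)

noncomputable def avg (φ : Cube n → ℝ) : ℝ := (∑ x, φ x) / 2 ^ n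

open Classical in
noncomputable def ind (p : Prop) : ℝ := if p then 1 else 0

noncomputable def pr (p : Cube n → Prop) : ℝ := avg (fun x => ind (p x))

lemma ind_pos {p : Prop} (h : p) : ind p = 1 := by simp [ind, h]
lemma ind_neg {p : Prop} (h : ¬ p) : ind p = 0 := by simp [ind, h]
lemma ind_nonneg (p : Prop) : 0 ≤ ind p := by unfold ind; split_ifs <;> norm_num
lemma ind_le_one (p : Prop) : ind p ≤ 1 := by unfold ind; split_ifs <;> norm_num
lemma ind_congr {p q : Prop} (h : p ↔ q) : ind p = ind q := by rw [propext h]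
lemma ind_mono {p q : Prop} (h : p → q) : ind p ≤ ind q := by
  by_cases hp : p
  · rw [ind_pos hp, ind_pos (h hp)]
  · rw [ind_neg hp]; exact ind_nonneg _
lemma ind_le_add {p q r : Prop} (h : p → q ∨ r) : ind p ≤ ind q + ind r := by
  by_cases hp : p
  · rw [ind_pos hp]
    rcases h hp with h | h
    · rw [ind_pos h]; linarith [ind_nonneg r]
    · rw [ind_pos h]; linarith [ind_nonneg q]
  · rw [ind_neg hp]; linarith [ind_nonneg q, ind_nonneg r]

open Classical in
lemma sum_ind {ι : Type*} (Y : Finset ι) (p : ι → Prop) :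
    ∑ y ∈ Y, ind (p y) = ((Y.filter p).card : ℝ) := by
  simp [ind]

lemma flp_flp (i : Fin n) (x : Cube n) : flp i (flp i x) = x := by
  unfold flp; simp

lemma flp_self (i : Fin n) (x : Cube n) : flp i x i = !x i := by simp [flp]
lemma flp_ne {i j : Fin n} (h : j ≠ i) (x : Cube n) : flp i x j = x j := by
  simp [flp, update_of_ne h]
lemma update_flp (i : Fin n) (x : Cube n) (b : Bool) : update (flp i x) i b = update x i b := by
  simp [flp]

lemma sum_flp (i : Fin n) (φ : Cube n → ℝ) : ∑ x, φ (flp i x) = ∑ x, φ x :=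
  Fintype.sum_equiv (Function.Involutive.toPerm (flp i) (flp_flp i)) _ _ (fun _ => rfl)

lemma avg_flp (i : Fin n) (φ : Cube n → ℝ) : avg (fun x => φ (flp i x)) = avg φ := by
  unfold avg; rw [sum_flp]

lemma avg_mono {φ ψ : Cube n → ℝ} (h : ∀ x, φ x ≤ ψ x) : avg φ ≤ avg ψ := by
  unfold avg
  exact div_le_div_of_nonneg_right (Finset.sum_le_sum fun x _ => h x) (by positivity)

lemma avg_add (φ ψ : Cube n → ℝ) : avg (fun x => φ x + ψ x) = avg φ + avg ψ := by
  unfold avg; rw [Finset.sum_add_distrib, add_div]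

lemma avg_sub (φ ψ : Cube n → ℝ) : avg (fun x => φ x - ψ x) = avg φ - avg ψ := by
  unfold avg; rw [Finset.sum_sub_distrib, sub_div]

lemma avg_mul (c : ℝ) (φ : Cube n → ℝ) : avg (fun x => c * φ x) = c * avg φ := by
  unfold avg; rw [← Finset.mul_sum, mul_div_assoc]

lemma avg_const (c : ℝ) : avg (fun _ : Cube n => c) = c := by
  unfold avg; simp

lemma avg_sum {ι : Type*} (Y : Finset ι) (φ : ι → Cube n → ℝ) :
    avg (fun x => ∑ y ∈ Y, φ y x) = ∑ y ∈ Y, avg (φ y) := by
  unfold avg; rw [Finset.sum_comm, Finset.sum_div]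

lemma avg_nonneg {φ : Cube n → ℝ} (h : ∀ x, 0 ≤ φ x) : 0 ≤ avg φ := by
  have := avg_mono (φ := fun _ => (0:ℝ)) h
  rwa [avg_const] at this

lemma pr_nonneg (p : Cube n → Prop) : 0 ≤ pr p := avg_nonneg fun _ => ind_nonneg _
lemma pr_le_one (p : Cube n → Prop) : pr p ≤ 1 := by
  have := avg_mono (n := n) (φ := fun x => ind (p x)) (ψ := fun _ => (1:ℝ)) (fun x => ind_le_one _)
  rwa [avg_const] at this
lemma pr_mono {p q : Cube n → Prop} (h : ∀ x, p x → q x) : pr p ≤ pr q :=
  avg_mono fun x => ind_mono (h x)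

/-- if `p x` forces `q` at `x` or at the flipped point then `pr p ≤ 2 pr q` -/
lemma pr_le_two (i : Fin n) {p q : Cube n → Prop} (h : ∀ x, p x → q x ∨ q (flp i x)) :
    pr p ≤ 2 * pr q := by
  have h1 : pr p ≤ avg (fun x => ind (q x) + ind (q (flp i x))) :=
    avg_mono fun x => ind_le_add (h x)
  rw [avg_add, avg_flp i (fun x => ind (q x))] at h1
  unfold pr at *; linarith

lemma avg_update_le (i : Fin n) (b : Bool) {φ : Cube n → ℝ} (h : ∀ x, 0 ≤ φ x) :
    avg (fun x => φ (update x i b)) ≤ 2 * avg φ := by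
  have h1 : avg (fun x => φ (update x i b)) ≤ avg (fun x => φ x + φ (flp i x)) := by
    refine avg_mono fun x => ?_
    by_cases hb : x i = b
    · have : update x i b = x := by rw [← hb]; simp
      rw [this]; linarith [h (flp i x)]
    · have : update x i b = flp i x := by
        unfold flp; congr 1; cases b <;> cases hx : x i <;> simp_all
      rw [this]; linarith [h x]
  rw [avg_add, avg_flp] at h1; linarith

lemma D_update (i : Fin n) (φ : Cube n → ℝ) (x : Cube n) (b : Bool) :
    D i φ (update x i b) = D i φ x := by simp [D]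

lemma D_self (i : Fin n) (φ : Cube n → ℝ) : D i (D i φ) = 0 := by
  funext x; simp [D]

lemma D_comm (i j : Fin n) (φ : Cube n → ℝ) : D i (D j φ) = D j (D i φ) := by
  by_cases h : i = j
  · rw [h]
  · funext x; simp only [D]
    rw [update_comm h, update_comm h, update_comm h, update_comm h]; ring

lemma D_zero (i : Fin n) : D i (0 : Cube n → ℝ) = 0 := by funext x; simp [D]

lemma D_sub (i : Fin n) (φ ψ : Cube n → ℝ) : D i (φ - ψ) = D i φ - D i ψ := by
  funext x; simp [D]; ring

lemma eq_update_of_D {i : Fin n} {φ : Cube n → ℝ} (h : D i φ = 0) (x : Cube n) (b : Bool) :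
    φ (update x i b) = φ x := by
  have h1 : φ (update x i true) = φ (update x i false) := by
    have := congrFun h x; simp only [D, Pi.zero_apply] at this; linarith
  have h2 : x = update x i (x i) := by simp
  conv_rhs => rw [h2]
  cases b <;> cases x i <;> simp [h1]

lemma D_eq_zero_of {i : Fin n} {φ : Cube n → ℝ} (h : ∀ x b, φ (update x i b) = φ x) :
    D i φ = 0 := by
  funext x; simp [D, h]

lemma eq_of_agree {φ : Cube n → ℝ} (T : Finset (Fin n)) (h : ∀ i ∈ T, D i φ = 0) :
    ∀ x y : Cube n, (∀ i ∉ T, x i = y i) → φ x = φ y := by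
  induction T using Finset.induction_on with
  | empty => intro x y hxy; congr 1; funext i; exact hxy i (by simp)
  | insert a T _ ih =>
    intro x y hxy
    rw [← eq_update_of_D (h a (by simp)) x (y a)]
    refine ih (fun i hi => h i (by simp [hi])) _ _ fun i hi => ?_
    by_cases hia : i = a
    · subst hia; simp
    · rw [update_of_ne hia]; exact hxy i (by simp [hi, hia])

lemma lowDeg_zero : ∀ e : ℕ, LowDeg e (0 : Cube n → ℝ)
  | 0 => fun i => D_zero i
  | e+1 => fun i => by rw [D_zero]; exact lowDeg_zero e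

lemma LowDeg.succ : ∀ {e : ℕ} {φ : Cube n → ℝ}, LowDeg e φ → LowDeg (e+1) φ
  | 0, _, h => fun i => by rw [h i]; exact lowDeg_zero 0
  | _+1, _, h => fun i => (h i).succ

lemma LowDeg.sub : ∀ {e : ℕ} {φ ψ : Cube n → ℝ}, LowDeg e φ → LowDeg e ψ → LowDeg e (φ - ψ)
  | 0, _, _, h, h' => fun i => by rw [D_sub, h i, h' i, sub_zero]
  | _+1, _, _, h, h' => fun i => by rw [D_sub]; exact (h i).sub (h' i)

lemma lowDeg_of_D {e : ℕ} {φ : Cube n → ℝ} (h : ∀ i, D i φ = 0) : LowDeg e φ := by
  induction e with
  | zero => exact h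
  | succ e ih => exact ih.succ

/-- a nonzero function of degree at most `e` has support of measure at least `2^{-e}` -/
lemma supp_ge : ∀ (e : ℕ) {φ : Cube n → ℝ}, LowDeg e φ → φ ≠ 0 →
    1 / 2 ^ e ≤ pr (fun x => φ x ≠ 0) := by
  have key : ∀ φ : Cube n → ℝ, (∀ i, D i φ = 0) → φ ≠ 0 → 1 ≤ pr (fun x => φ x ≠ 0) := by
    intro φ h h0
    obtain ⟨z, hz⟩ := Function.ne_iff.mp h0
    have : ∀ x, φ x ≠ 0 := fun x => by
      rw [eq_of_agree univ (fun i _ => h i) x z (by simp)]; exact hz
    have h2 : pr (fun x => φ x ≠ 0) = avg (fun _ : Cube n => (1:ℝ)) := by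
      unfold pr; congr 1; funext x; exact ind_pos (this x)
    rw [h2, avg_const]
  intro e
  induction e with
  | zero => intro φ h h0; simpa using key φ h h0
  | succ e ih =>
    intro φ h h0
    by_cases hc : ∀ i, D i φ = 0
    · refine le_trans ?_ (key φ hc h0)
      rw [div_le_one (by positivity)]; exact one_le_pow₀ (by norm_num)
    · push Not at hc
      obtain ⟨i, hi⟩ := hc
      have h1 := ih (h i) hi
      have h2 : pr (fun x => D i φ x ≠ 0) ≤ 2 * pr (fun x => φ x ≠ 0) := by
        refine pr_le_two i fun x hx => ?_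
        by_contra hh
        push Not at hh
        apply hx
        have e1 : x = update x i (x i) := by simp
        have h3 := hh.1; have h4 := hh.2
        rw [e1] at h3; unfold flp at h4
        unfold D
        cases hxi : x i <;> simp [hxi] at h3 h4 <;> simp [h3, h4]
      rw [pow_succ]
      have : (1:ℝ) / (2 ^ e * 2) = (1 / 2 ^ e) / 2 := by field_simp
      rw [this]; linarith

/-- iterated derivative -/
def iterD : List (Fin n) → (Cube n → ℝ) → Cube n → ℝ
  | [], φ => φ
  | a :: L, φ => iterD L (D a φ)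

lemma iterD_zero : ∀ L : List (Fin n), iterD L (0 : Cube n → ℝ) = 0
  | [] => rfl
  | a :: L => by simp only [iterD]; rw [D_zero]; exact iterD_zero L

lemma iterD_lowDeg : ∀ (L : List (Fin n)) (e : ℕ) (φ : Cube n → ℝ), LowDeg e φ →
    (e < L.length → iterD L φ = 0) ∧ (L.length ≤ e → LowDeg (e - L.length) (iterD L φ))
  | [], e, φ, h => ⟨by simp, fun _ => by simpa [iterD] using h⟩
  | a :: L, 0, φ, h => ⟨fun _ => by simp only [iterD]; rw [h a]; exact iterD_zero L, by simp⟩
  | a :: L, e+1, φ, h => by
    have := iterD_lowDeg L e (D a φ) (h a)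
    simp only [iterD, List.length_cons]
    refine ⟨fun hh => this.1 (by omega), fun hh => ?_⟩
    have h2 := this.2 (by omega)
    rwa [show e + 1 - (L.length + 1) = e - L.length by omega]

open Classical in
lemma step_point (a : Fin n) (L : List (Fin n)) (ha : a ∉ L) (φ : Cube n → ℝ) (z : Cube n)
    (κ c : ℝ)
    (h : ∀ x : Cube n, (∀ i ∉ a :: L, x i = z i) →
      φ x = κ + if ∀ i ∈ a :: L, x i = z i then c else 0) :
    ∀ x : Cube n, (∀ i ∉ L, x i = z i) →
      D a φ x = 0 + if ∀ i ∈ L, x i = z i then (if z a then c else -c) else 0 := by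
  intro x hx
  have h1 : ∀ b, φ (update x a b) = κ + if (b = z a ∧ ∀ i ∈ L, x i = z i) then c else 0 := by
    intro b
    rw [h]
    · congr 1
      refine if_congr ?_ rfl rfl
      simp only [List.mem_cons, forall_eq_or_imp, update_self]
      refine and_congr Iff.rfl (forall_congr' fun i => forall_congr' fun hi => ?_)
      rw [update_of_ne (by rintro rfl; exact ha hi)]
    · intro i hi
      simp only [List.mem_cons, not_or] at hi
      rw [update_of_ne hi.1]; exact hx i hi.2
  unfold D
  rw [h1, h1]
  by_cases hL : ∀ i ∈ L, x i = z i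
  · rw [if_pos hL]; simp only [eq_true hL, and_true]; cases z a <;> simp
  · simp [hL]

open Classical in
lemma iterD_point0 : ∀ (L : List (Fin n)), L.Nodup → ∀ (φ : Cube n → ℝ) (z : Cube n) (c : ℝ),
    (∀ x : Cube n, (∀ i ∉ L, x i = z i) →
      φ x = 0 + if ∀ i ∈ L, x i = z i then c else 0) → |iterD L φ z| = |c|
  | [], _, φ, z, c, h => by simp only [iterD]; rw [h z (by simp)]; simp
  | a :: L, hL, φ, z, c, h => by
    rw [List.nodup_cons] at hL
    simp only [iterD]
    rw [iterD_point0 L hL.2 _ z _ (step_point a L hL.1 φ z 0 c h)]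
    split_ifs <;> simp

open Classical in
lemma iterD_point (L : List (Fin n)) (hL : L.Nodup) (hne : L ≠ []) (φ : Cube n → ℝ) (z : Cube n)
    (κ c : ℝ) (h : ∀ x : Cube n, (∀ i ∉ L, x i = z i) →
      φ x = κ + if ∀ i ∈ L, x i = z i then c else 0) : |iterD L φ z| = |c| := by
  obtain ⟨a, L, rfl⟩ := List.exists_cons_of_ne_nil hne
  rw [List.nodup_cons] at hL
  simp only [iterD]
  rw [iterD_point0 L hL.2 _ z _ (step_point a L hL.1 φ z κ c h)]
  split_ifs <;> simp

/-- decision tree rule -/
lemma lowDeg_tree : ∀ (k : ℕ) (φ : Cube n → ℝ) (i : Fin n),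
    LowDeg k (fun x => φ (update x i false)) → LowDeg k (fun x => φ (update x i true)) →
    LowDeg (k+1) φ := by
  have comm : ∀ (φ : Cube n → ℝ) (i j : Fin n) (b : Bool), j ≠ i →
      (fun x => D j φ (update x i b)) = D j (fun x => φ (update x i b)) := by
    intro φ i j b h; funext x; simp only [D]; rw [update_comm h, update_comm h]
  intro k
  induction k with
  | zero =>
    intro φ i h0 h1 j
    by_cases hj : j = i
    · subst hj; exact h1.sub h0
    · have : D j φ = 0 := by
        funext x
        have e1 : x = update x i (x i) := by simp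
        have a0 := congrFun ((comm φ i j false hj).trans (h0 j)) x
        have a1 := congrFun ((comm φ i j true hj).trans (h1 j)) x
        rw [e1]; cases x i
        · exact a0
        · exact a1
      rw [this]; exact lowDeg_zero 0
  | succ k ih =>
    intro φ i h0 h1 j
    by_cases hj : j = i
    · subst hj; exact h1.sub h0
    · refine ih _ i ?_ ?_
      · rw [comm φ i j false hj]; exact h0 j
      · rw [comm φ i j true hj]; exact h1 j

/-- Walsh characters -/
def chi (S : Finset (Fin n)) (x : Cube n) : ℝ := ∏ i ∈ S, (if x i then (-1 : ℝ) else 1)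

lemma zero_of_fourier (φ : Cube n → ℝ) (h : ∀ S, ∑ x, φ x * chi S x = 0) : φ = 0 := by
  funext y
  have h1 : ∀ x : Cube n, ∑ S : Finset (Fin n), chi S x * chi S y = if x = y then 2 ^ n else 0 := by
    intro x
    have : ∑ S : Finset (Fin n), chi S x * chi S y =
        ∏ i : Fin n, (1 + (if x i then (-1 : ℝ) else 1) * (if y i then (-1 : ℝ) else 1)) := by
      rw [Finset.prod_one_add, Finset.powerset_univ]
      refine Finset.sum_congr rfl fun S _ => ?_
      unfold chi; rw [← Finset.prod_mul_distrib]
    rw [this]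
    split_ifs with hxy
    · subst hxy
      rw [Finset.prod_congr rfl (g := fun _ => (2:ℝ))]
      · simp
      · intro i _; cases x i <;> norm_num
    · obtain ⟨i, hi⟩ := Function.ne_iff.mp hxy
      refine Finset.prod_eq_zero (Finset.mem_univ i) ?_
      cases hx : x i <;> cases hy : y i <;> simp_all
  have h2 : ∑ S : Finset (Fin n), (∑ x, φ x * chi S x) * chi S y = φ y * 2 ^ n := by
    simp_rw [Finset.sum_mul]
    rw [Finset.sum_comm]
    simp_rw [mul_assoc, ← Finset.mul_sum, h1]
    simp
  simp only [h, zero_mul, Finset.sum_const_zero] at h2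
  have : (2:ℝ) ^ n ≠ 0 := by positivity
  simpa [this] using h2.symm

lemma chi_flp (S : Finset (Fin n)) (i : Fin n) (x : Cube n) :
    chi S (flp i x) = if i ∈ S then - chi S x else chi S x := by
  unfold chi
  split_ifs with h
  · rw [← Finset.mul_prod_erase S _ h, ← Finset.mul_prod_erase S _ h, flp_self]
    rw [Finset.prod_congr rfl (g := fun j => if x j then (-1:ℝ) else 1)]
    · cases x i <;> simp
    · intro j hj; rw [flp_ne (Finset.ne_of_mem_erase hj)]
  · refine Finset.prod_congr rfl fun j hj => ?_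
    rw [flp_ne (by rintro rfl; exact h hj)]

lemma fourier_D (φ : Cube n → ℝ) (i : Fin n) (S : Finset (Fin n)) :
    ∑ x, D i φ x * chi S x =
      if i ∈ S then 0 else -2 * ∑ x, φ x * chi (insert i S) x := by
  have hD : ∀ x, D i φ (flp i x) = D i φ x := fun x => D_update i φ x _
  split_ifs with h
  · have := sum_flp i (fun x => D i φ x * chi S x)
    simp only [hD, chi_flp, h, if_true, mul_neg, Finset.sum_neg_distrib] at this
    linarith
  · have h1 := sum_flp i (fun x => φ x * chi (insert i S) x)
    have h2 : ∑ x, D i φ x * chi S x =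
        -(∑ x, φ x * chi (insert i S) x) - ∑ x, φ (flp i x) * chi (insert i S) (flp i x) := by
      rw [← Finset.sum_neg_distrib, ← Finset.sum_sub_distrib]
      refine Finset.sum_congr rfl fun x _ => ?_
      rw [chi_flp, if_pos (Finset.mem_insert_self i S)]
      have e : chi (insert i S) x = (if x i then (-1:ℝ) else 1) * chi S x := by
        unfold chi; rw [Finset.prod_insert h]
      rw [e]
      have e1 : x = update x i (x i) := by simp
      unfold D flp
      cases hx : x i
      · rw [hx] at e1; rw [← e1]; simp; ring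
      · rw [hx] at e1; rw [← e1]; simp; ring
    rw [h2, h1]; ring

lemma lowDeg_of_fourier : ∀ (e : ℕ) (φ : Cube n → ℝ),
    (∀ S : Finset (Fin n), e < S.card → ∑ x, φ x * chi S x = 0) → LowDeg e φ := by
  intro e
  induction e with
  | zero =>
    intro φ h i
    refine zero_of_fourier _ fun S => ?_
    rw [fourier_D]
    split_ifs with hi
    · rfl
    · rw [h _ (by rw [Finset.card_insert_of_notMem hi]; omega)]; simp
  | succ e ih =>
    intro φ h i
    refine ih _ fun S hS => ?_
    rw [fourier_D]
    split_ifs with hi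
    · rfl
    · rw [h _ (by rw [Finset.card_insert_of_notMem hi]; omega)]; simp

end Pool.Agent.H157Z.Mono
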