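import Pool.Agent.H157Z.Mono.Struct

set_option autoImplicit false
open Finset Function Classical

namespace Pool.Agent.H157Z.Mono

variable {n : ℕ} {F : Cube n → ℝ}

def setA (A : Finset (Fin n)) (b : Bool) (x : Cube n) : Cube n :=
  fun i => if i ∈ A then b else x i

def Blk (F : Cube n → ℝ) (A : Finset (Fin n)) (x : Cube n) : Prop :=
  F (setA A true x) = 1 ∧ F (setA A false x) = 0

def G (F : Cube n → ℝ) (A : Finset (Fin n)) (x : Cube n) : ℝ :=
  F (setA A true x) - F (setA A false x)

lemma setA_update_mem {A : Finset (Fin n)} {i : Fin n} (h : i ∈ A) (b c : Bool) (x : Cube n) :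
    setA A b (update x i c) = setA A b x := by
  funext j; unfold setA; split_ifs with hj
  · rfl
  · rw [update_of_ne (by rintro rfl; exact hj h)]

lemma setA_update_notMem {A : Finset (Fin n)} {i : Fin n} (h : i ∉ A) (b c : Bool) (x : Cube n) :
    setA A b (update x i c) = update (setA A b x) i c := by
  funext j
  by_cases hj : j = i
  · subst hj; simp [setA, h]
  · simp [setA, update_of_ne hj]

lemma setA_insert (A : Finset (Fin n)) (a : Fin n) (b : Bool) (x : Cube n) :
    setA (insert a A) b x = setA A b (update x a b) := by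
  funext j
  by_cases hj : j = a
  · subst hj; simp [setA]
  · simp [setA, hj]

lemma setA_empty (b : Bool) (x : Cube n) : setA ∅ b x = x := by
  funext j; simp [setA]

lemma setA_mono (A : Finset (Fin n)) (b : Bool) : Monotone (setA A b) := by
  intro x y h j; unfold setA; split_ifs
  · exact le_rfl
  · exact h j

lemma setA_le (A : Finset (Fin n)) (x : Cube n) : setA A false x ≤ setA A true x := by
  intro j; unfold setA; split_ifs <;> simp

lemma MB.G_eq (hF : MB F) (A : Finset (Fin n)) (x : Cube n) : G F A x = ind (Blk F A x) := by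
  have hm := hF.mono (setA_le A x)
  unfold G
  by_cases h : Blk F A x
  · rw [ind_pos h, h.1, h.2]; norm_num
  · rw [ind_neg h]
    unfold Blk at h
    rcases hF.h01 (setA A true x) with a | a <;> rcases hF.h01 (setA A false x) with b | b
    · rw [a, b]; norm_num
    · rw [a, b] at hm; norm_num at hm
    · exact absurd ⟨a, b⟩ h
    · rw [a, b]; norm_num

lemma G_insert {A : Finset (Fin n)} {a : Fin n} (ha : a ∉ A) (x : Cube n) :
    G F (insert a A) x = D a F (setA A true x) + G F A (update x a false) := by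
  unfold G D
  rw [setA_insert, setA_insert, setA_update_notMem ha true true, setA_update_notMem ha true false]
  ring

lemma G_indep (A : Finset (Fin n)) (i : Fin n) (h : i ∈ A ∨ ∀ a ∈ A, D i (D a F) = 0) :
    D i (G F A) = 0 := by
  refine D_eq_zero_of ?_
  by_cases hi : i ∈ A
  · intro x b; unfold G; rw [setA_update_mem hi, setA_update_mem hi]
  have h := h.resolve_left hi
  induction A using Finset.induction_on with
  | empty => intro x b; simp [G, setA_empty]
  | insert a A ha ih =>
    intro x b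
    simp only [mem_insert, not_or] at hi
    rw [G_insert ha, G_insert ha, setA_update_notMem hi.2,
      eq_update_of_D (h a (by simp)), update_comm hi.1,
      ih (Or.inr fun c hc => h c (by simp [hc])) hi.2 (fun c hc => h c (by simp [hc]))]

lemma avg_setA (A : Finset (Fin n)) (b : Bool) {φ : Cube n → ℝ} (h : ∀ x, 0 ≤ φ x) :
    avg (fun x => φ (setA A b x)) ≤ 2 ^ A.card * avg φ := by
  induction A using Finset.induction_on with
  | empty => simp [setA_empty]
  | insert a A ha ih =>
    simp_rw [setA_insert]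
    have := avg_update_le a b (φ := fun x => φ (setA A b x)) (fun x => h _)
    rw [Finset.card_insert_of_notMem ha, pow_succ]; linarith

lemma MB.avg_G (hF : MB F) (A : Finset (Fin n)) (M : ℝ) (h : ∀ a ∈ A, pr (Sens F a) ≤ M) :
    2 * avg (G F A) ≤ A.card * 2 ^ A.card * M := by
  induction A using Finset.induction_on with
  | empty =>
    have : G F ∅ = fun _ => 0 := by funext x; simp [G, setA_empty]
    rw [this, avg_const]; simp
  | insert a A ha ih =>
    have ih := ih fun c hc => h c (by simp [hc])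
    have e : G F (insert a A) = fun x => D a F (setA A true x) + G F A (update x a false) :=
      funext fun x => G_insert ha x
    rw [e, avg_add]
    have h1 := avg_update_le a false (φ := G F A) (fun x => by rw [hF.G_eq]; exact ind_nonneg _)
    have h2 := avg_setA A true (φ := D a F) (fun x => by rw [hF.D_eq]; exact ind_nonneg _)
    have h3 : avg (D a F) ≤ M := by rw [hF.D_eq]; exact h a (by simp)
    have h4 : (2:ℝ) ^ A.card * avg (D a F) ≤ 2 ^ A.card * M :=
      mul_le_mul_of_nonneg_left h3 (by positivity)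
    rw [Finset.card_insert_of_notMem ha, pow_succ]; push_cast
    nlinarith

lemma MB.pr_Blk (hF : MB F) (A : Finset (Fin n)) : pr (Blk F A) = avg (G F A) := by
  unfold pr; congr 1; funext x; rw [hF.G_eq]

lemma MB.blk_ge (hF : MB F) {d : ℕ} (hd : LowDeg d F) (A : Finset (Fin n)) (hA : A.Nonempty)
    (z : Cube n) (h : ∀ a ∈ A, Sens F a z) : 1 / 2 ^ (d - A.card) ≤ pr (Blk F A) := by
  have h1 := (iterD_lowDeg A.toList d F hd).2 (by simpa using hF.block_card hd A z h)
  rw [Finset.length_toList] at h1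
  have h2 : iterD A.toList F ≠ 0 := fun h0 => hF.block_iterD A hA z h (by rw [h0]; rfl)
  refine (supp_ge _ h1 h2).trans (pr_mono fun w hw => ?_)
  by_contra hb
  apply hw
  have h3 : F (setA A true w) = F (setA A false w) := by
    have := hF.G_eq A w
    rw [ind_neg hb] at this; unfold G at this; linarith
  have := iterD_point A.toList A.nodup_toList (by simpa using hA.ne_empty) F w
    (F (setA A true w)) 0 ?_
  · simpa using this
  · intro x hx
    simp only [Finset.mem_toList] at hx
    have a1 : x ≤ setA A true w := by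
      intro j; unfold setA; split_ifs with hj
      · exact Bool.le_true _
      · rw [hx j hj]
    have a2 : setA A false w ≤ x := by
      intro j; unfold setA; split_ifs with hj
      · exact Bool.false_le _
      · rw [hx j hj]
    have := hF.mono a1; have := hF.mono a2
    simp only [ite_self, add_zero]; linarith

def Sep (F : Cube n → ℝ) (A B : Finset (Fin n)) : Prop :=
  Disjoint A B ∧ ∀ a ∈ A, ∀ b ∈ B, D b (D a F) = 0

lemma Sep.symm {A B : Finset (Fin n)} (h : Sep F A B) : Sep F B A :=
  ⟨h.1.symm, fun b hb a ha => by rw [D_comm]; exact h.2 a ha b hb⟩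

lemma MB.blk_setA (hF : MB F) (A B : Finset (Fin n))
    (h : ∀ i ∈ B, i ∈ A ∨ ∀ a ∈ A, D i (D a F) = 0) (b : Bool) (x : Cube n) :
    Blk F A (setA B b x) ↔ Blk F A x := by
  have := eq_of_agree B (fun i hi => G_indep A i (h i hi)) (setA B b x) x
    (fun i hi => by simp [setA, hi])
  rw [hF.G_eq, hF.G_eq] at this
  exact ind_inj.mp this

lemma MB.blk_update (hF : MB F) (A : Finset (Fin n)) (i : Fin n)
    (h : i ∈ A ∨ ∀ a ∈ A, D i (D a F) = 0) (b : Bool) (x : Cube n) :
    Blk F A (update x i b) ↔ Blk F A x := by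
  have := eq_update_of_D (G_indep A i h) x b
  rw [hF.G_eq, hF.G_eq] at this
  exact ind_inj.mp this

lemma MB.blk_disj (hF : MB F) {A B : Finset (Fin n)} (h : Sep F A B) {x : Cube n}
    (hA : Blk F A x) (hB : Blk F B x) : False := by
  have h1 := ((hF.blk_setA A B (fun i hi => Or.inr fun a ha => h.2 a ha i hi) false x).mpr hA).1
  have h2 := ((hF.blk_setA B A (fun i hi => Or.inr fun a ha => h.symm.2 a ha i hi) true x).mpr
    hB).2
  have e : setA A true (setA B false x) = setA B false (setA A true x) := by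
    funext j; unfold setA
    by_cases a : j ∈ A <;> by_cases b : j ∈ B <;> simp [a, b]
    exact Finset.disjoint_left.mp h.1 a b
  rw [e, h2] at h1; norm_num at h1

lemma sum_ind_le_ind {ι : Type*} (Y : Finset ι) (p : ι → Prop) (q : Prop)
    (h1 : ∀ a ∈ Y, p a → q) (h2 : ∀ a ∈ Y, ∀ b ∈ Y, p a → p b → a = b) :
    ∑ y ∈ Y, ind (p y) ≤ ind q := by
  by_cases hq : q
  · rw [ind_pos hq, sum_ind]
    exact_mod_cast Finset.card_le_one.mpr fun a ha b hb =>
      h2 a (mem_filter.mp ha).1 b (mem_filter.mp hb).1 (mem_filter.mp ha).2 (mem_filter.mp hb).2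
  · rw [ind_neg hq, Finset.sum_eq_zero fun y hy => ind_neg fun hh => hq (h1 y hy hh)]

lemma MB.fam_sum (hF : MB F) (𝒜 : Finset (Finset (Fin n)))
    (h : ∀ A ∈ 𝒜, ∀ B ∈ 𝒜, A ≠ B → Sep F A B) : ∑ A ∈ 𝒜, pr (Blk F A) ≤ 1 := by
  unfold pr
  rw [← avg_sum, ← avg_const (n := n) 1]
  refine avg_mono fun x => ?_
  rw [← ind_pos trivial]
  refine sum_ind_le_ind _ _ _ (fun _ _ _ => trivial) fun A hA B hB a b => ?_
  by_contra hne; exact hF.blk_disj (h A hA B hB hne) a b

lemma MB.fam_bd (hF : MB F) (𝒜 : Finset (Finset (Fin n)))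
    (h : ∀ A ∈ 𝒜, ∀ B ∈ 𝒜, A ≠ B → Sep F A B) (N : ℝ) (hN : 1 ≤ N)
    (hR : ∀ A ∈ 𝒜, ∑ a ∈ A, ((univ.filter fun i => D i (D a F) ≠ 0).card : ℝ) ≤ N) :
    ∑ A ∈ 𝒜, bd (Blk F A) ≤ 8 * Real.sqrt N := by
  let U := 𝒜.biUnion id
  have hU : ∀ A ∈ 𝒜, ∀ i ∈ U, i ∈ A ∨ ∀ a ∈ A, D i (D a F) = 0 := by
    intro A hA i hi
    obtain ⟨B, hB, hiB⟩ := mem_biUnion.mp hi
    by_cases hAB : A = B
    · left; rw [hAB]; exact hiB
    · right; exact fun a ha => (h A hA B hB hAB).2 a ha i hiB
  let φ : Bool → Fin n → Finset (Fin n) → Cube n → ℝ := fun b k A x =>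
    ind (Blk F A (update x k b) ∧ ¬ Blk F A (update x k (!b)))
  have H : ∀ b, ∑ k, ∑ A ∈ 𝒜, avg (φ b k A) ≤ 4 * 1 * Real.sqrt N := by
    intro b
    have hM : MB (fun x => F (setA U b x)) :=
      ⟨fun x => hF.h01 _, hF.mono.comp (setA_mono U b)⟩
    refine hybrid 𝒜 _ hM.nonneg hM.le_one (φ b) (fun _ _ _ => ind_nonneg _) N hN ?_ 1
      zero_le_one ?_
    · intro k A hA
      refine ⟨A.biUnion fun a => univ.filter fun i => D i (D a F) ≠ 0, ?_, fun i hi => ?_⟩
      · refine le_trans ?_ (hR A hA)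
        exact_mod_cast Finset.card_biUnion_le
      · simp only [mem_biUnion, mem_filter, mem_univ, true_and, not_exists, not_and,
          not_not] at hi
        refine D_eq_zero_of fun x c => ind_congr ?_
        have e : ∀ c', Blk F A (update (update x i c) k c') ↔ Blk F A (update x k c') := by
          intro c'
          by_cases hik : i = k
          · subst hik; simp
          · rw [update_comm hik, hF.blk_update A i (Or.inr hi)]
        rw [e, e]
    · intro k x
      rw [hM.D_eq, one_mul]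
      refine sum_ind_le_ind _ _ _ (fun A hA hh => ?_) fun A hA B hB a b => ?_
      · have hk : k ∉ U := fun hk => hh.2 (by
          rw [hF.blk_update A k (hU A hA k hk)]
          exact (hF.blk_update A k (hU A hA k hk) _ _).mp hh.1)
        have hAU : ∀ y, setA A b (setA U b y) = setA U b y := by
          intro y; funext j; unfold setA
          split_ifs with a1 a2
          · rfl
          · exact absurd (mem_biUnion.mpr ⟨A, hA, a1⟩) a2
          · rfl
          · rfl
        obtain ⟨h1, h2⟩ := hh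
        rw [← hF.blk_setA A U (hU A hA) b] at h1 h2
        have le1 : ∀ c, setA A c (setA U b (update x k false)) ≤
            setA A c (setA U b (update x k true)) :=
          fun c => setA_mono _ _ (setA_mono _ _ (upd_le x k))
        unfold Blk at h1 h2
        unfold Sens
        cases b
        · simp only [Bool.not_false] at h2
          rw [hAU] at h1 h2
          exact ⟨hF.one_of_ne fun h0 => h2 ⟨hF.one_of_le (le1 true) h1.1, h0⟩, h1.2⟩
        · simp only [Bool.not_true] at h2
          rw [hAU] at h1 h2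
          exact ⟨h1.1, hF.zero_of_ne fun h0 => h2 ⟨h0, hF.zero_of_le (le1 false) h1.2⟩⟩
      · by_contra hne; exact hF.blk_disj (h A hA B hB hne) a.1 b.1
  have h1 : ∀ k, ∀ A ∈ 𝒜,
      pr (fun x => ¬ (Blk F A (update x k true) ↔ Blk F A (update x k false))) ≤
        avg (φ true k A) + avg (φ false k A) := by
    intro k A _
    rw [← avg_add]
    refine avg_mono fun x => ind_le_add ?_
    simp only [Bool.not_true, Bool.not_false]; tauto
  unfold bd
  rw [Finset.sum_comm]
  calc _ ≤ ∑ k, ∑ A ∈ 𝒜, (avg (φ true k A) + avg (φ false k A)) :=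
        Finset.sum_le_sum fun k _ => Finset.sum_le_sum (h1 k)
    _ = ∑ k, ∑ A ∈ 𝒜, avg (φ true k A) + ∑ k, ∑ A ∈ 𝒜, avg (φ false k A) := by
        simp_rw [Finset.sum_add_distrib]
    _ ≤ _ := by linarith [H true, H false]

lemma exists_max_fam {α : Type*} (R : α → α → Prop) (hs : ∀ a b, R a b → R b a) (B : Finset α)
    (hirr : ∀ a ∈ B, ¬ R a a) :
    ∃ 𝒜 ⊆ B, (∀ a ∈ 𝒜, ∀ b ∈ 𝒜, a ≠ b → R a b) ∧ ∀ b ∈ B, ∃ a ∈ 𝒜, ¬ R a b := by
  induction B using Finset.induction_on with
  | empty => exact ⟨∅, by simp, by simp, by simp⟩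
  | insert c B _ ih =>
    obtain ⟨𝒜, h1, h2, h3⟩ := ih fun a ha => hirr a (by simp [ha])
    by_cases hc : ∀ a ∈ 𝒜, R a c
    · refine ⟨insert c 𝒜, insert_subset_insert _ h1, ?_, ?_⟩
      · intro a ha b hb hab
        rcases mem_insert.mp ha with rfl | ha' <;> rcases mem_insert.mp hb with rfl | hb'
        · exact absurd rfl hab
        · exact hs _ _ (hc b hb')
        · exact hc a ha'
        · exact h2 a ha' b hb' hab
      · intro b hb
        rcases mem_insert.mp hb with rfl | hb'
        · exact ⟨b, by simp, hirr b (by simp)⟩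
        · obtain ⟨a, ha, hab⟩ := h3 b hb'
          exact ⟨a, by simp [ha], hab⟩
    · push Not at hc
      refine ⟨𝒜, h1.trans (subset_insert _ _), h2, fun b hb => ?_⟩
      rcases mem_insert.mp hb with rfl | hb'
      · exact hc
      · exact h3 b hb'

/-- peeling step: remove the variables lying in a block of maximal size -/
lemma peel {Y : Finset (Fin n)} {m : ℕ} (hY : SY F Y (m+1)) (Δ : ℝ)
    (hΔ : ∀ y ∈ Y, ((Y.filter fun i => D i (D y F) ≠ 0).card : ℝ) ≤ Δ) :
    ∃ Y' ⊆ Y, SY F Y' m ∧ ∃ 𝒜 : Finset (Finset (Fin n)),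
      (∀ A ∈ 𝒜, A ⊆ Y ∧ A.card = m + 1 ∧ ∃ z, ∀ a ∈ A, Sens F a z) ∧
      (∀ A ∈ 𝒜, ∀ B ∈ 𝒜, A ≠ B → Sep F A B) ∧
      (Y.card : ℝ) ≤ Y'.card + 𝒜.card * ((m + 1) * (Δ + 1)) := by
  let 𝔅 : Finset (Finset (Fin n)) :=
    univ.filter fun A => A ⊆ Y ∧ A.card = m + 1 ∧ ∃ z, ∀ a ∈ A, Sens F a z
  obtain ⟨𝒜, h1, h2, h3⟩ := exists_max_fam (Sep F) (fun _ _ h => h.symm) 𝔅 (by
    intro A hA hS
    have := (mem_filter.mp hA).2.2.1
    have h4 : A = ∅ := by simpa using hS.1
    rw [h4] at this; simp at this)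
  let Nb : Fin n → Finset (Fin n) := fun a => insert a (Y.filter fun i => D i (D a F) ≠ 0)
  have hNb : ∀ a ∈ Y, ((Nb a).card : ℝ) ≤ Δ + 1 := by
    intro a ha
    have : ((Nb a).card : ℝ) ≤ (Y.filter fun i => D i (D a F) ≠ 0).card + 1 := by
      exact_mod_cast Finset.card_insert_le _ _
    linarith [hΔ a ha]
  let Bad := 𝒜.biUnion fun A => A.biUnion Nb
  refine ⟨Y \ Bad, sdiff_subset, fun z => ?_, 𝒜, fun A hA => (mem_filter.mp (h1 hA)).2, h2, ?_⟩
  · by_contra hh
    push Not at hh
    set A' := (Y \ Bad).filter fun y => Sens F y z with hA'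
    have hsub : A' ⊆ Y.filter fun y => Sens F y z :=
      filter_subset_filter _ sdiff_subset
    have hc : A'.card = m + 1 := le_antisymm ((card_le_card hsub).trans (hY z)) hh
    have hAY : A' ⊆ Y := hsub.trans (filter_subset _ _)
    have hsens : ∀ a ∈ A', Sens F a z := fun a ha => (mem_filter.mp ha).2
    obtain ⟨A, hA, hS⟩ := h3 A' (mem_filter.mpr ⟨mem_univ _, hAY, hc, z, hsens⟩)
    have : ∃ a ∈ A, ∃ b ∈ A', b ∈ Nb a := by
      by_contra hne
      push Not at hne
      refine hS ⟨Finset.disjoint_left.mpr fun a ha hb => hne a ha a hb (mem_insert_self _ _),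
        fun a ha b hb => ?_⟩
      by_contra h0
      exact hne a ha b hb (mem_insert_of_mem (mem_filter.mpr ⟨hAY hb, h0⟩))
    obtain ⟨a, ha, b, hb, hab⟩ := this
    refine (mem_sdiff.mp (mem_filter.mp hb).1).2 ?_
    exact mem_biUnion.mpr ⟨A, hA, mem_biUnion.mpr ⟨a, ha, hab⟩⟩
  · have hB : (Bad.card : ℝ) ≤ 𝒜.card * ((m + 1) * (Δ + 1)) := by
      have a1 : (Bad.card : ℝ) ≤ ∑ A ∈ 𝒜, ((A.biUnion Nb).card : ℝ) := by
        exact_mod_cast Finset.card_biUnion_le
      refine a1.trans ?_
      rw [← nsmul_eq_mul]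
      refine Finset.sum_le_card_nsmul _ _ _ fun A hA => ?_
      obtain ⟨hAY, hAc, _⟩ := (mem_filter.mp (h1 hA)).2
      have a2 : ((A.biUnion Nb).card : ℝ) ≤
          ∑ a ∈ A, ((Nb a).card : ℝ) := by exact_mod_cast Finset.card_biUnion_le
      refine a2.trans ?_
      have : ((m:ℝ) + 1) = A.card := by rw [hAc]; push_cast; ring
      rw [this, ← nsmul_eq_mul]
      exact Finset.sum_le_card_nsmul _ _ _ fun a ha => hNb a (hAY ha)
    have : (Y.card : ℝ) ≤ (Y \ Bad).card + Bad.card := by
      exact_mod_cast Finset.card_le_card_sdiff_add_card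
    linarith

end Pool.Agent.H157Z.Mono
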