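import Pool.Agent.H157Z.Mono.Block

set_option autoImplicit false
open Finset Function Classical

namespace Pool.Agent.H157Z.Mono

variable {n : ℕ} {F : Cube n → ℝ}

/-- influence class `k` -/
def Cls (F : Cube n → ℝ) (d k : ℕ) (Y : Finset (Fin n)) : Prop :=
  ∀ y ∈ Y, 2 ^ k ≤ pr (Sens F y) * 2 ^ d ∧ pr (Sens F y) * 2 ^ d ≤ 2 ^ (k+1)

lemma MB.R_bound (hF : MB F) {e : ℕ} (hd : LowDeg (e+2) F) {k : ℕ} {Y : Finset (Fin n)}
    (hc : Cls F (e+2) k Y) {y : Fin n} (hy : y ∈ Y) :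
    ((univ.filter fun i => D i (D y F) ≠ 0).card : ℝ) ≤ (e + 2 : ℕ) * 2 ^ (k+1) :=
  (hF.nb_bound hd (hF.SY_deg hd univ) y).trans
    (mul_le_mul_of_nonneg_left (hc y hy).2 (by positivity))

lemma MB.base (hF : MB F) {e : ℕ} (hd : LowDeg (e+2) F) {k : ℕ} (hk : 4 * (k+1) ≤ e + 2)
    {Y : Finset (Fin n)} (hc : Cls F (e+2) k Y) {m : ℕ} (hY : SY F Y m) :
    (Y.card : ℝ) * Real.sqrt (e + 2 : ℕ) ≤ 32 * m * (3/4) ^ k * 2 ^ (e+2) := by
  set d := e + 2 with hdd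
  have hd1 : (1:ℝ) ≤ d := by exact_mod_cast (by omega : 1 ≤ d)
  have hK : (1:ℝ) ≤ 2 ^ k := one_le_pow₀ (by norm_num)
  have H := hF.main_ineq hY (d * 2 ^ (k+1) + 1) (by linarith [show (0:ℝ) ≤ d * 2 ^ (k+1) by positivity])
    (fun y hy => by linarith [hF.R_bound hd hc hy])
  have hss : Real.sqrt d * Real.sqrt d = d := Real.mul_self_sqrt (by linarith)
  have hs0 : 0 < Real.sqrt d := Real.sqrt_pos.mpr (by linarith)
  set s := Real.sqrt d
  have h1 : Real.sqrt (d * 2 ^ (k+1) + 1) ≤ 2 * s * (3/2) ^ k := by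
    refine Real.sqrt_le_iff.mpr ⟨by positivity, ?_⟩
    have a1 : (2:ℝ) ^ k ≤ ((3/2) ^ k) ^ 2 := by
      rw [← pow_mul, mul_comm, pow_mul]; exact pow_le_pow_left₀ (by norm_num) (by norm_num) k
    have a2 : (2 * s * (3/2) ^ k) ^ 2 = 4 * d * ((3/2) ^ k) ^ 2 := by rw [← hss]; ring
    rw [a2, pow_succ]; nlinarith
  have hP : (0:ℝ) < 2 ^ d := by positivity
  have h2 : ∀ y ∈ Y, 2 ^ k * d / 2 ^ d ≤ bd (Sens F y) := by
    intro y hy
    have a1 : pr (Sens F y) ≤ 1 / 2 ^ (d - (k+1)) := by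
      rw [le_div_iff₀ (by positivity)]
      have : (2:ℝ) ^ d = 2 ^ (d - (k+1)) * 2 ^ (k+1) := by rw [← pow_add]; congr 1; omega
      have a2 := (hc y hy).2
      rw [this, ← mul_assoc] at a2
      exact le_of_mul_le_mul_right (by linarith) (by positivity : (0:ℝ) < 2 ^ (k+1))
    refine le_trans ?_ (iso' _ _ a1)
    have a3 : (d:ℝ) ≤ 2 * ((d - (k+1) : ℕ) : ℝ) := by exact_mod_cast (by omega)
    rw [div_le_iff₀ hP]
    have a4 := (hc y hy).1
    nlinarith [mul_le_mul a4 a3 (by linarith) (by linarith)]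
  have h3 := Finset.card_nsmul_le_sum _ _ _ h2
  rw [nsmul_eq_mul] at h3
  have h4 : (Y.card : ℝ) * (2 ^ k * d / 2 ^ d) ≤ 16 * m * (2 * s * (3/2) ^ k) :=
    h3.trans (H.trans (mul_le_mul_of_nonneg_left h1 (by positivity)))
  rw [← mul_div_assoc, div_le_iff₀ hP] at h4
  have e1 : (3/2 : ℝ) ^ k = (3/4) ^ k * 2 ^ k := by rw [← mul_pow]; norm_num
  rw [e1, ← hss] at h4
  refine le_of_mul_le_mul_right ?_ (by positivity : (0:ℝ) < 2 ^ k * s)
  nlinarith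

lemma MB.fam (hF : MB F) {e : ℕ} (hd : LowDeg (e+2) F) {k : ℕ} (hk : 4 * (k+1) ≤ e + 2)
    {Y : Finset (Fin n)} (hc : Cls F (e+2) k Y) {M : ℕ} (hM : 1 ≤ M) (𝒜 : Finset (Finset (Fin n)))
    (h1 : ∀ A ∈ 𝒜, A ⊆ Y ∧ A.card = M ∧ ∃ z, ∀ a ∈ A, Sens F a z)
    (h2 : ∀ A ∈ 𝒜, ∀ B ∈ 𝒜, A ≠ B → Sep F A B) :
    (𝒜.card : ℝ) * Real.sqrt (e + 2 : ℕ) * 2 ^ M ≤ 32 * M * 2 ^ k * 2 ^ (e+2) := by
  set d := e + 2 with hdd
  have hd1 : (1:ℝ) ≤ d := by exact_mod_cast (by omega : 1 ≤ d)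
  have hM1 : (1:ℝ) ≤ M := by exact_mod_cast hM
  have hK : (1:ℝ) ≤ 2 ^ k := one_le_pow₀ (by norm_num)
  have hss : Real.sqrt d * Real.sqrt d = d := Real.mul_self_sqrt (by linarith)
  have hs0 : 0 < Real.sqrt d := Real.sqrt_pos.mpr (by linarith)
  set s := Real.sqrt d
  have hP : (0:ℝ) < 2 ^ d := by positivity
  have low : ∀ A ∈ 𝒜, (2:ℝ) ^ M / 2 ^ d ≤ pr (Blk F A) := by
    intro A hA
    obtain ⟨_, a2, z, hz⟩ := h1 A hA
    have a3 := hF.blk_ge hd A (card_pos.mp (by omega)) z hz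
    have a4 := hF.block_card hd A z hz
    rw [a2] at a3 a4
    have : (2:ℝ) ^ d = 2 ^ (d - M) * 2 ^ M := by rw [← pow_add]; congr 1; omega
    rw [this]
    refine le_trans (le_of_eq ?_) a3
    field_simp
  by_cases h4 : 4 * M ≤ d
  · have H := hF.fam_bd 𝒜 h2 (M * (d * 2 ^ (k+1))) (by
      rw [pow_succ]; nlinarith [mul_le_mul hd1 hK zero_le_one (by linarith)]) (fun A hA => by
      obtain ⟨a1, a2, _⟩ := h1 A hA
      rw [← a2, ← nsmul_eq_mul]
      exact Finset.sum_le_card_nsmul _ _ _ fun a ha => hF.R_bound hd hc (a1 ha))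
    have b1 : Real.sqrt (M * (d * 2 ^ (k+1))) ≤ s * (2 * M * 2 ^ k) := by
      refine Real.sqrt_le_iff.mpr ⟨by positivity, ?_⟩
      have a2 : (s * (2 * M * 2 ^ k)) ^ 2 = d * ((2 * M * 2 ^ k) * (2 * M * 2 ^ k)) := by
        rw [← hss]; ring
      have a3 : (1:ℝ) ≤ 2 * M * 2 ^ k := by nlinarith
      rw [a2, pow_succ]
      have a4 : (0:ℝ) ≤ d * (2 * M * 2 ^ k) := by positivity
      nlinarith [mul_le_mul_of_nonneg_left a3 a4]
    have b2 : ∀ A ∈ 𝒜, 2 ^ M * d / 2 ^ d / 2 ≤ bd (Blk F A) := by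
      intro A hA
      obtain ⟨a1, a2, _⟩ := h1 A hA
      have c1 := hF.avg_G A (2 ^ (k+1) / 2 ^ d) fun a ha => by
        rw [le_div_iff₀ hP]; exact (hc a (a1 ha)).2
      rw [← hF.pr_Blk, a2] at c1
      have c2 : pr (Blk F A) ≤ 1 / 2 ^ (d - (2 * M + k)) := by
        have e1 : (2:ℝ) ^ d = 2 ^ (d - (2 * M + k)) * (2 ^ M * 2 ^ M * 2 ^ k) := by
          rw [← pow_add, ← pow_add, ← pow_add]; congr 1; omega
        have e2 : (M:ℝ) ≤ 2 ^ M := by exact_mod_cast (Nat.lt_two_pow_self (n := M)).le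
        have e3 : (M:ℝ) * 2 ^ M * (2 ^ (k+1) / 2 ^ d) ≤ 2 ^ M * 2 ^ M * (2 ^ (k+1) / 2 ^ d) := by
          gcongr
        have e4 : (2:ℝ) ^ M * 2 ^ M * (2 ^ (k+1) / 2 ^ d) = 2 * (1 / 2 ^ (d - (2 * M + k))) := by
          rw [e1, pow_succ]; field_simp
        linarith
      refine le_trans ?_ (iso' _ _ c2)
      have a3 : (d:ℝ) ≤ 4 * ((d - (2 * M + k) : ℕ) : ℝ) := by exact_mod_cast (by omega)
      have a4 := low A hA
      have a5 : (0:ℝ) < 2 ^ M / 2 ^ d := by positivity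
      have e5 : (2:ℝ) ^ M * d / 2 ^ d / 2 = (2 ^ M / 2 ^ d) * d / 2 := by ring
      rw [e5]
      nlinarith [mul_le_mul a4 a3 (by linarith) (by linarith)]
    have h3 := Finset.card_nsmul_le_sum _ _ _ b2
    rw [nsmul_eq_mul] at h3
    have h5 : (𝒜.card : ℝ) * (2 ^ M * d / 2 ^ d / 2) ≤ 8 * (s * (2 * M * 2 ^ k)) := by linarith
    have e6 : (𝒜.card : ℝ) * (2 ^ M * d / 2 ^ d / 2) = 𝒜.card * (2 ^ M * d) / 2 / 2 ^ d := by ring
    rw [e6, div_le_iff₀ hP, ← hss] at h5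
    refine le_of_mul_le_mul_right ?_ hs0
    nlinarith
  · have H := hF.fam_sum 𝒜 h2
    have h3 := Finset.card_nsmul_le_sum _ _ _ low
    rw [nsmul_eq_mul, ← mul_div_assoc] at h3
    have h5 : (𝒜.card : ℝ) * 2 ^ M ≤ 2 ^ d := by
      have := h3.trans H; rwa [div_le_one hP] at this
    have h6 : s ≤ 2 * M := by
      refine Real.sqrt_le_iff.mpr ⟨by positivity, ?_⟩
      have : (d:ℝ) ≤ 4 * M := by exact_mod_cast (by omega)
      nlinarith
    have h7 : (𝒜.card : ℝ) * 2 ^ M * s ≤ 2 ^ d * (2 * M) :=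
      mul_le_mul h5 h6 hs0.le hP.le
    have h8 : (0:ℝ) ≤ M * 2 ^ d := by positivity
    nlinarith [mul_le_mul_of_nonneg_left hK h8]

lemma MB.cls_bound (hF : MB F) {e : ℕ} (hd : LowDeg (e+2) F) {k : ℕ} (hk : 4 * (k+1) ≤ e + 2)
    (j : ℕ) : ∀ Y : Finset (Fin n), Cls F (e+2) k Y → SY F Y (6 * k + j) →
    (Y.card : ℝ) * Real.sqrt (e + 2 : ℕ) ≤
      (192 * k + 96 * ∑ M ∈ range (6 * k + j + 1), (M:ℝ) ^ 3 * (3/4) ^ M) * (3/4) ^ k *
        2 ^ (e+2) := by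
  induction j with
  | zero =>
    intro Y hc hY
    refine (hF.base hd hk hc hY).trans ?_
    have : 0 ≤ ∑ M ∈ range (6 * k + 0 + 1), (M:ℝ) ^ 3 * (3/4) ^ M :=
      Finset.sum_nonneg fun _ _ => by positivity
    gcongr
    push_cast; linarith
  | succ j ih =>
    intro Y hc hY
    obtain ⟨Y', hY', hS, 𝒜, h1, h2, h3⟩ := peel (m := 6 * k + j) hY
      ((6 * k + j + 1 : ℕ) * 2 ^ (k+1)) fun y hy =>
        (hF.nb_bound hd hY y).trans (mul_le_mul_of_nonneg_left (hc y hy).2 (by positivity))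
    have ih := ih Y' (fun y hy => hc y (hY' hy)) hS
    have H := hF.fam hd hk hc (M := 6 * k + j + 1) (by omega) 𝒜 h1 h2
    rw [show 6 * k + (j + 1) + 1 = (6 * k + j + 1) + 1 by omega, Finset.sum_range_succ]
    have eM : ((6 * k + j : ℕ) : ℝ) + 1 = (6 * k + j + 1 : ℕ) := by push_cast; ring
    rw [eM] at h3
    set M := 6 * k + j + 1 with hM
    have hM1 : (1:ℝ) ≤ M := by exact_mod_cast (by omega : 1 ≤ M)
    have hK : (1:ℝ) ≤ 2 ^ k := one_le_pow₀ (by norm_num)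
    have hs0 : 0 ≤ Real.sqrt (e + 2 : ℕ) := Real.sqrt_nonneg _
    set s := Real.sqrt (e + 2 : ℕ)
    have a1 : (M:ℝ) * 2 ^ (k+1) + 1 ≤ 3 * M * 2 ^ k := by rw [pow_succ]; nlinarith
    have a2 : (2:ℝ) ^ k * 2 ^ k ≤ (3/4) ^ M * (3/4) ^ k * 2 ^ M := by
      have b1 : (3/4:ℝ) ^ M * 2 ^ M = (3/2) ^ M := by rw [← mul_pow]; norm_num
      have b2 : (3/2:ℝ) ^ (6 * k) ≤ (3/2) ^ M := pow_le_pow_right₀ (by norm_num) (by omega)
      have b3 : (2:ℝ) ^ k * 2 ^ k ≤ (3/2) ^ (6 * k) * (3/4) ^ k := by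
        rw [pow_mul, ← mul_pow, ← mul_pow]; exact pow_le_pow_left₀ (by norm_num) (by norm_num) k
      have b4 : (0:ℝ) ≤ (3/4) ^ k := by positivity
      nlinarith [mul_le_mul_of_nonneg_right b2 b4]
    have a3 : (𝒜.card : ℝ) * (M * (M * 2 ^ (k+1) + 1)) * s ≤
        96 * (M ^ 3 * (3/4) ^ M) * (3/4) ^ k * 2 ^ (e+2) := by
      refine le_of_mul_le_mul_right ?_ (by positivity : (0:ℝ) < 2 ^ M)
      calc (𝒜.card : ℝ) * (M * (M * 2 ^ (k+1) + 1)) * s * 2 ^ M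
          = (𝒜.card * s * 2 ^ M) * (M * (M * 2 ^ (k+1) + 1)) := by ring
        _ ≤ (32 * M * 2 ^ k * 2 ^ (e+2)) * (M * (3 * M * 2 ^ k)) := by gcongr
        _ = 96 * M ^ 3 * 2 ^ (e+2) * (2 ^ k * 2 ^ k) := by ring
        _ ≤ 96 * M ^ 3 * 2 ^ (e+2) * ((3/4) ^ M * (3/4) ^ k * 2 ^ M) := by gcongr
        _ = _ := by ring
    have a4 := mul_le_mul_of_nonneg_right h3 hs0
    nlinarith

lemma sq_le_pow (q : ℕ) : (4 * q + 3) ^ 2 ≤ 32 * 2 ^ q := by
  induction q with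
  | zero => norm_num
  | succ q ih =>
    rcases Nat.lt_or_ge q 2 with h | h
    · interval_cases q <;> norm_num
    · rw [pow_succ 2 q]; nlinarith

theorem deg_bound : ∃ C : ℝ, 0 ≤ C ∧ ∀ (n : ℕ) (F : Cube n → ℝ) (d : ℕ), MB F → LowDeg d F →
    ((univ.filter fun y => D y F ≠ 0).card : ℝ) * Real.sqrt d ≤ C * 2 ^ d := by
  have s3 := summable_pow_mul_geometric_of_norm_lt_one (R := ℝ) 3 (r := 3/4) (by norm_num)
  have s1 := summable_pow_mul_geometric_of_norm_lt_one (R := ℝ) 1 (r := 3/4) (by norm_num)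
  have s0 := summable_pow_mul_geometric_of_norm_lt_one (R := ℝ) 0 (r := 3/4) (by norm_num)
  set C1 := ∑' M : ℕ, (M:ℝ) ^ 3 * (3/4) ^ M
  have hC1 : ∀ t, ∑ M ∈ range t, (M:ℝ) ^ 3 * (3/4) ^ M ≤ C1 := fun t =>
    s3.sum_le_tsum _ fun _ _ => by positivity
  have hC10 : 0 ≤ C1 := by simpa using hC1 0
  have s2 : Summable fun k : ℕ => (192 * (k:ℝ) + 96 * C1) * (3/4) ^ k := by
    refine ((s1.mul_left 192).add (s0.mul_left (96 * C1))).congr fun k => ?_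
    ring
  set C2 := ∑' k : ℕ, (192 * (k:ℝ) + 96 * C1) * (3/4) ^ k
  have hC2 : ∀ t, ∑ k ∈ range t, (192 * (k:ℝ) + 96 * C1) * (3/4) ^ k ≤ C2 := fun t =>
    s2.sum_le_tsum _ fun _ _ => by positivity
  have hC20 : 0 ≤ C2 := by simpa using hC2 0
  have main : ∀ (n : ℕ) (F : Cube n → ℝ) (e : ℕ), MB F → LowDeg (e+2) F →
      ((univ.filter fun y => D y F ≠ 0).card : ℝ) * Real.sqrt (e + 2 : ℕ) ≤
        (32 + C2) * 2 ^ (e+2) := by
    intro n F e hF hd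
    set d := e + 2 with hdd
    set q := d / 4 with hq
    let Hi : Finset (Fin n) := univ.filter fun y => 2 ^ q ≤ pr (Sens F y) * 2 ^ d
    let Yk : ℕ → Finset (Fin n) := fun k => univ.filter fun y =>
      2 ^ k ≤ pr (Sens F y) * 2 ^ d ∧ pr (Sens F y) * 2 ^ d ≤ 2 ^ (k+1)
    have hP : (0:ℝ) < 2 ^ d := by positivity
    have hsub : (univ.filter fun y => D y F ≠ 0) ⊆ Hi ∪ (range q).biUnion Yk := by
      intro y hy
      rw [mem_union]
      by_cases h : y ∈ Hi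
      · exact Or.inl h
      right
      have h1 := hF.sens_ge hd (mem_filter.mp hy).2
      have h2 : 1 ≤ pr (Sens F y) * 2 ^ d := by
        rw [div_le_iff₀ (by positivity)] at h1
        have : (2:ℝ) ^ (e+1) ≤ 2 ^ d := pow_le_pow_right₀ (by norm_num) (by omega)
        nlinarith [pr_nonneg (Sens F y)]
      obtain ⟨k, k1, k2⟩ := exists_nat_pow_near h2 (by norm_num : (1:ℝ) < 2)
      simp only [Hi, mem_filter, mem_univ, true_and, not_le] at h
      refine mem_biUnion.mpr ⟨k, mem_range.mpr ?_, mem_filter.mpr ⟨mem_univ _, k1, k2.le⟩⟩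
      exact (pow_lt_pow_iff_right₀ (by norm_num : (1:ℝ) < 2)).mp (k1.trans_lt h)
    have hs0 : 0 ≤ Real.sqrt d := Real.sqrt_nonneg _
    have hHi : (Hi.card : ℝ) * Real.sqrt d ≤ 32 * 2 ^ d := by
      have a1 := sum_sens_le (hF.SY_deg hd Hi)
      have a2 : ∀ y ∈ Hi, (2:ℝ) ^ q / 2 ^ d ≤ pr (Sens F y) := fun y hy => by
        rw [div_le_iff₀ hP]; exact (mem_filter.mp hy).2
      have a3 := Finset.card_nsmul_le_sum _ _ _ a2
      rw [nsmul_eq_mul, ← mul_div_assoc] at a3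
      have a4 := a3.trans a1
      rw [div_le_iff₀ hP] at a4
      have hd1 : (1:ℝ) ≤ d := by exact_mod_cast (by omega : 1 ≤ d)
      have a5 : Real.sqrt d ≤ d := Real.sqrt_le_iff.mpr ⟨by linarith, by nlinarith⟩
      have a6 : (d:ℝ) * d ≤ 32 * 2 ^ q := by
        have b1 := sq_le_pow q
        have b2 : d * d ≤ 32 * 2 ^ q := by
          have : d ≤ 4 * q + 3 := by omega
          nlinarith
        exact_mod_cast b2
      refine le_of_mul_le_mul_right ?_ (by positivity : (0:ℝ) < 2 ^ q)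
      calc (Hi.card : ℝ) * Real.sqrt d * 2 ^ q = (Hi.card * 2 ^ q) * Real.sqrt d := by ring
        _ ≤ (d * 2 ^ d) * d := by gcongr
        _ = (d * d) * 2 ^ d := by ring
        _ ≤ (32 * 2 ^ q) * 2 ^ d := by gcongr
        _ = _ := by ring
    have hYk : ∀ k ∈ range q, ((Yk k).card : ℝ) * Real.sqrt d ≤
        (192 * (k:ℝ) + 96 * C1) * (3/4) ^ k * 2 ^ d := by
      intro k hk
      have hk := mem_range.mp hk
      refine (hF.cls_bound hd (k := k) (by omega) d (Yk k) (fun y hy => (mem_filter.mp hy).2)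
        (fun z => (hF.SY_deg hd _ z).trans (by omega))).trans ?_
      gcongr
      exact hC1 _
    have c1 : ((univ.filter fun y => D y F ≠ 0).card : ℝ) ≤
        Hi.card + ∑ k ∈ range q, ((Yk k).card : ℝ) := by
      have := (card_le_card hsub).trans ((card_union_le _ _).trans
        (Nat.add_le_add_left Finset.card_biUnion_le _))
      exact_mod_cast this
    have c2 := Finset.sum_le_sum hYk
    rw [← Finset.sum_mul, ← Finset.sum_mul] at c2
    have c3 := mul_le_mul_of_nonneg_right (hC2 q) hP.le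
    have c4 := mul_le_mul_of_nonneg_right c1 hs0
    nlinarith
  refine ⟨4 * (32 + C2), by linarith, fun n F d hF hd => ?_⟩
  have hP : (1:ℝ) ≤ 2 ^ d := one_le_pow₀ (by norm_num)
  rcases Nat.lt_or_ge d 2 with h | h
  · have h2 : LowDeg (0+2) F := by
      interval_cases d
      · exact hd.succ.succ
      · exact hd.succ
    have := main n F 0 hF h2
    have h3 : Real.sqrt d ≤ Real.sqrt (0 + 2 : ℕ) :=
      Real.sqrt_le_sqrt (by exact_mod_cast (by omega))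
    have h4 := mul_le_mul_of_nonneg_left h3
      (Nat.cast_nonneg (α := ℝ) (univ.filter fun y => D y F ≠ 0).card)
    rw [show (2:ℝ) ^ (0+2) = 4 by norm_num] at this
    nlinarith [mul_le_mul_of_nonneg_left hP (by linarith : 0 ≤ 4 * (32 + C2))]
  · obtain ⟨e, rfl⟩ := Nat.exists_eq_add_of_le' h
    have := main n F e hF hd
    nlinarith

end Pool.Agent.H157Z.Mono
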