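import Pool.Agent.H157Z.Mono.Basic

set_option autoImplicit false
open Finset Function

namespace Pool.Agent.H157Z.Mono

variable {n : ℕ}

def w (p : ℝ) (b : Bool) : ℝ := if b then p else 1 - p

def wt (π : Fin n → ℝ) (x : Cube n) : ℝ := ∏ i, w (π i) (x i)

/-- product measure with biases `π` -/
def mu (π : Fin n → ℝ) (φ : Cube n → ℝ) : ℝ := ∑ x, wt π x * φ x

lemma wt_nonneg {π : Fin n → ℝ} (h : ∀ i, 0 ≤ π i ∧ π i ≤ 1) (x : Cube n) : 0 ≤ wt π x :=
  Finset.prod_nonneg fun i _ => by unfold w; split_ifs <;> linarith [(h i).1, (h i).2]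

lemma sum_wt (π : Fin n → ℝ) : ∑ x, wt π x = 1 := by
  unfold wt
  have := Finset.prod_univ_sum (fun _ : Fin n => (univ : Finset Bool)) (fun i b => w (π i) b)
  rw [Fintype.piFinset_univ] at this
  rw [← this]
  refine Finset.prod_eq_one fun i _ => ?_
  simp [w]

lemma mu_mono {π : Fin n → ℝ} (h : ∀ i, 0 ≤ π i ∧ π i ≤ 1) {φ ψ : Cube n → ℝ}
    (hh : ∀ x, φ x ≤ ψ x) : mu π φ ≤ mu π ψ :=
  Finset.sum_le_sum fun x _ => mul_le_mul_of_nonneg_left (hh x) (wt_nonneg h x)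

lemma mu_const (π : Fin n → ℝ) (c : ℝ) : mu π (fun _ => c) = c := by
  unfold mu; rw [← Finset.sum_mul, sum_wt, one_mul]

lemma mu_sum {ι : Type*} (π : Fin n → ℝ) (Y : Finset ι) (φ : ι → Cube n → ℝ) :
    mu π (fun x => ∑ y ∈ Y, φ y x) = ∑ y ∈ Y, mu π (φ y) := by
  unfold mu; simp_rw [Finset.mul_sum]; rw [Finset.sum_comm]

lemma mu_mul (π : Fin n → ℝ) (c : ℝ) (φ : Cube n → ℝ) :
    mu π (fun x => c * φ x) = c * mu π φ := by
  unfold mu; rw [Finset.mul_sum]; refine Finset.sum_congr rfl fun x _ => by ring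

lemma two_mu (π : Fin n → ℝ) (k : Fin n) (φ : Cube n → ℝ) :
    2 * mu π φ = ∑ x : Cube n, (∏ i ∈ univ.erase k, w (π i) (x i)) *
      (π k * φ (update x k true) + (1 - π k) * φ (update x k false)) := by
  have h1 := sum_flp k (fun x => wt π x * φ x)
  have h2 : 2 * mu π φ = ∑ x : Cube n, (wt π x * φ x + wt π (flp k x) * φ (flp k x)) := by
    rw [Finset.sum_add_distrib, h1]; unfold mu; ring
  rw [h2]
  refine Finset.sum_congr rfl fun x _ => ?_
  unfold wt
  rw [← Finset.mul_prod_erase univ _ (mem_univ k), ← Finset.mul_prod_erase univ _ (mem_univ k),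
    flp_self]
  rw [Finset.prod_congr rfl (s₁ := univ.erase k) (f := fun i => w (π i) (flp k x i))
    (g := fun i => w (π i) (x i)) (fun j hj => by rw [flp_ne (Finset.ne_of_mem_erase hj)])]
  have e1 : x = update x k (x k) := by simp
  unfold flp
  cases hx : x k
  · rw [hx] at e1; rw [← e1]; simp [w]; ring
  · rw [hx] at e1; rw [← e1]; simp [w]; ring

lemma mu_update (π : Fin n → ℝ) (k : Fin n) (p : ℝ) (φ : Cube n → ℝ) :
    mu (update π k p) φ = mu π φ + (p - π k) * mu π (D k φ) := by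
  have h1 := two_mu (update π k p) k φ
  have h2 := two_mu π k φ
  have h3 := two_mu π k (D k φ)
  have e : ∀ x : Cube n, ∏ i ∈ univ.erase k, w (update π k p i) (x i) =
      ∏ i ∈ univ.erase k, w (π i) (x i) := fun x =>
    Finset.prod_congr rfl fun j hj => by rw [update_of_ne (Finset.ne_of_mem_erase hj)]
  simp only [e, update_self] at h1
  simp only [D_update] at h3
  have : 2 * mu (update π k p) φ = 2 * mu π φ + (p - π k) * (2 * mu π (D k φ)) := by
    rw [h1, h2, h3, Finset.mul_sum, ← Finset.sum_add_distrib]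
    refine Finset.sum_congr rfl fun x _ => ?_
    unfold D; ring
  linarith

lemma mu_zero (π : Fin n → ℝ) : mu π 0 = 0 := by simp [mu]

lemma mu_agree {φ : Cube n → ℝ} (T : Finset (Fin n)) (h : ∀ i ∈ T, D i φ = 0) :
    ∀ π ρ : Fin n → ℝ, (∀ i ∉ T, π i = ρ i) → mu π φ = mu ρ φ := by
  induction T using Finset.induction_on with
  | empty => intro x y hxy; congr 1; funext i; exact hxy i (by simp)
  | insert a T _ ih =>
    intro x y hxy
    have := mu_update x a (y a) φ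
    rw [h a (by simp), mu_zero, mul_zero, add_zero] at this
    rw [← this]
    refine ih (fun i hi => h i (by simp [hi])) _ _ fun i hi => ?_
    by_cases hia : i = a
    · subst hia; simp
    · rw [update_of_ne hia]; exact hxy i (by simp [hi, hia])

/-- the hybrid bias vectors -/
noncomputable def hyb (n : ℕ) (ε : ℝ) (k : ℕ) : Fin n → ℝ :=
  fun i => if i.val < k then 1/2 + ε else 1/2 - ε

lemma hyb_mem {ε : ℝ} (h : |ε| ≤ 1/2) (k : ℕ) (i : Fin n) :
    0 ≤ hyb n ε k i ∧ hyb n ε k i ≤ 1 := by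
  have := abs_le.mp h
  unfold hyb; split_ifs <;> constructor <;> linarith

lemma telescope (ε : ℝ) (h : Cube n → ℝ) :
    2 * ε * ∑ k : Fin n, mu (hyb n ε k) (D k h) = mu (hyb n ε n) h - mu (hyb n ε 0) h := by
  rw [← Finset.sum_range_sub (fun k => mu (hyb n ε k) h) n,
    ← Fin.sum_univ_eq_sum_range (fun k => mu (hyb n ε (k+1)) h - mu (hyb n ε k) h) n,
    Finset.mul_sum]
  refine Finset.sum_congr rfl fun k _ => ?_
  have e : hyb n ε (k+1) = update (hyb n ε k) k (1/2 + ε) := by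
    funext i
    by_cases hi : i = k
    · subst hi; simp [hyb]
    · rw [update_of_ne hi]
      have : i.val ≠ k.val := fun hh => hi (Fin.ext hh)
      unfold hyb
      refine if_congr (by omega) rfl rfl
  rw [e, mu_update]
  have : hyb n ε k k = 1/2 - ε := by simp [hyb]
  rw [this]; ring

lemma telescope_le {ε : ℝ} (hε : |ε| ≤ 1/2) (h : Cube n → ℝ) (h0 : ∀ x, 0 ≤ h x)
    (h1 : ∀ x, h x ≤ 1) : |2 * ε * ∑ k : Fin n, mu (hyb n ε k) (D k h)| ≤ 1 := by
  rw [telescope]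
  have a : ∀ k, 0 ≤ mu (hyb n ε k) h ∧ mu (hyb n ε k) h ≤ 1 := fun k =>
    ⟨by have := mu_mono (hyb_mem hε k) (φ := fun _ => 0) h0; rwa [mu_const] at this,
     by have := mu_mono (hyb_mem hε k) (ψ := fun _ => 1) h1; rwa [mu_const] at this⟩
  rw [abs_le]; constructor <;> linarith [(a n).1, (a n).2, (a 0).1, (a 0).2]

lemma avg_le_two_hyb {ε : ℝ} (hε : |ε| ≤ 1/2) (k : ℕ) (φ : Cube n → ℝ) (h0 : ∀ x, 0 ≤ φ x)
    (R : Finset (Fin n)) (hR : ∀ i ∉ R, D i φ = 0) (hc : 4 * ε ^ 2 * R.card ≤ 3 / 4) :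
    avg φ ≤ mu (hyb n ε k) φ + mu (hyb n (-ε) k) φ := by
  classical
  have hε' : |-ε| ≤ 1/2 := by rwa [abs_neg]
  let tr : (Fin n → ℝ) → Fin n → ℝ := fun π i => if i ∈ R then π i else 1/2
  have e : ∀ π, mu π φ = mu (tr π) φ := fun π =>
    mu_agree Rᶜ (fun i hi => hR i (by simpa using hi)) _ _ fun i hi => by
      simp only [mem_compl, not_not] at hi; simp [tr, hi]
  have trm : ∀ π : Fin n → ℝ, (∀ i, 0 ≤ π i ∧ π i ≤ 1) → ∀ i, 0 ≤ tr π i ∧ tr π i ≤ 1 := by
    intro π hπ i; simp only [tr]; split_ifs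
    · exact hπ i
    · norm_num
  rw [e (hyb n ε k), e (hyb n (-ε) k)]
  unfold avg mu
  rw [← Finset.sum_add_distrib, Finset.sum_div]
  refine Finset.sum_le_sum fun x _ => ?_
  have ha := wt_nonneg (trm _ (hyb_mem (n := n) hε k)) x
  have hb := wt_nonneg (trm _ (hyb_mem (n := n) hε' k)) x
  have hab : wt (tr (hyb n ε k)) x * wt (tr (hyb n (-ε) k)) x =
      (1/4) ^ n * (1 - 4 * ε ^ 2) ^ R.card := by
    unfold wt
    rw [← Finset.prod_mul_distrib]
    rw [Finset.prod_congr rfl (g := fun i => (1/4 : ℝ) * if i ∈ R then (1 - 4 * ε ^ 2) else 1)]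
    · rw [Finset.prod_mul_distrib, Finset.prod_ite_mem]; simp
    · intro i _
      simp only [tr, hyb, w]
      split_ifs <;> ring
  have hbern : 1 / 4 ≤ (1 - 4 * ε ^ 2) ^ R.card := by
    have h2 : ε ^ 2 ≤ 1/4 := by
      have := abs_le.mp hε; nlinarith
    have := one_add_mul_le_pow (a := - (4 * ε ^ 2)) (by linarith) R.card
    rw [show (1:ℝ) + -(4 * ε ^ 2) = 1 - 4 * ε ^ 2 by ring] at this
    linarith
  set a := wt (tr (hyb n ε k)) x
  set b := wt (tr (hyb n (-ε) k)) x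
  have hq : (1/4 : ℝ) ^ n = (1 / 2 ^ n) ^ 2 := by
    rw [div_pow, div_pow, one_pow, one_pow, ← pow_mul, mul_comm, pow_mul]; norm_num
  have hp : (0:ℝ) < 1 / 2 ^ n := by positivity
  have hs : 1 / 2 ^ n ≤ a + b := by
    set t : ℝ := 1 / 2 ^ n
    have h4 : t ^ 2 ≤ 4 * (a * b) := by
      rw [hab, hq]; nlinarith [sq_nonneg t]
    by_contra hh
    push Not at hh
    nlinarith [sq_nonneg (a - b)]
  have := mul_le_mul_of_nonneg_right hs (h0 x)
  calc φ x / 2 ^ n = 1 / 2 ^ n * φ x := by ring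
    _ ≤ _ := by linarith

/-- Sperner type inequality for local events dominated by the derivative of a bounded function -/
theorem hybrid {ι : Type*} (Y : Finset ι) (h : Cube n → ℝ) (h0 : ∀ x, 0 ≤ h x)
    (h1 : ∀ x, h x ≤ 1) (φ : Fin n → ι → Cube n → ℝ) (φ0 : ∀ k y x, 0 ≤ φ k y x)
    (N : ℝ) (hN : 1 ≤ N)
    (dep : ∀ k, ∀ y ∈ Y, ∃ R : Finset (Fin n), (R.card : ℝ) ≤ N ∧ ∀ i ∉ R, D i (φ k y) = 0)
    (m : ℝ) (hm : 0 ≤ m) (hle : ∀ k x, ∑ y ∈ Y, φ k y x ≤ m * D k h x) :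
    ∑ k, ∑ y ∈ Y, avg (φ k y) ≤ 4 * m * Real.sqrt N := by
  have hs : 1 ≤ Real.sqrt N := Real.one_le_sqrt.mpr hN
  have hss : Real.sqrt N * Real.sqrt N = N := Real.mul_self_sqrt (by linarith)
  set s := Real.sqrt N
  have hs0 : 0 < s := by linarith
  set ε : ℝ := 1 / (4 * s) with hεd
  have hε0 : 0 < ε := by positivity
  have hεs : ε * (4 * s) = 1 := by rw [hεd]; field_simp
  have hε : |ε| ≤ 1/2 := by rw [abs_of_pos hε0]; nlinarith
  have hε' : |-ε| ≤ 1/2 := by rwa [abs_neg]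
  have key : ∀ δ : ℝ, |δ| ≤ 1/2 → ∀ k : Fin n,
      ∑ y ∈ Y, mu (hyb n δ k) (φ k y) ≤ m * mu (hyb n δ k) (D k h) := by
    intro δ hδ k
    rw [← mu_sum, ← mu_mul]
    exact mu_mono (hyb_mem hδ k) (hle k)
  have t1 := abs_le.mp (telescope_le hε h h0 h1)
  have t2 := abs_le.mp (telescope_le hε' h h0 h1)
  set A := ∑ k : Fin n, mu (hyb n ε k) (D k h)
  set B := ∑ k : Fin n, mu (hyb n (-ε) k) (D k h)
  have hA : A ≤ 2 * s := by nlinarith [t1.2]
  have hB : B ≤ 2 * s := by nlinarith [t2.1]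
  calc ∑ k, ∑ y ∈ Y, avg (φ k y)
      ≤ ∑ k : Fin n, ∑ y ∈ Y, (mu (hyb n ε k) (φ k y) + mu (hyb n (-ε) k) (φ k y)) := by
        refine Finset.sum_le_sum fun k _ => Finset.sum_le_sum fun y hy => ?_
        obtain ⟨R, hR1, hR2⟩ := dep k y hy
        refine avg_le_two_hyb hε k _ (φ0 k y) R hR2 ?_
        have : 4 * ε ^ 2 * N = 1 / 4 := by rw [← hss]; nlinarith
        nlinarith [sq_nonneg ε]
    _ ≤ ∑ k : Fin n, (m * mu (hyb n ε k) (D k h) + m * mu (hyb n (-ε) k) (D k h)) := by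
        refine Finset.sum_le_sum fun k _ => ?_
        rw [Finset.sum_add_distrib]
        exact add_le_add (key ε hε k) (key (-ε) hε' k)
    _ = m * A + m * B := by rw [Finset.sum_add_distrib, ← Finset.mul_sum, ← Finset.mul_sum]
    _ ≤ 4 * m * s := by nlinarith

end Pool.Agent.H157Z.Mono
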