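import Pool.Agent.H157Z.Mono.Basic

set_option autoImplicit false
open Finset Function

namespace Pool.Agent.H157Z.Mono

variable {n : ℕ}

/-- normalised edge boundary (total influence) of a set -/
noncomputable def bd (S : Cube n → Prop) : ℝ :=
  ∑ k, pr (fun x => ¬ (S (update x k true) ↔ S (update x k false)))

lemma avg_succ (φ : Cube (n+1) → ℝ) :
    avg φ = (avg (fun x : Cube n => φ (Fin.cons false x)) +
      avg (fun x : Cube n => φ (Fin.cons true x))) / 2 := by
  unfold avg
  rw [← Fintype.sum_equiv (Fin.consEquiv (fun _ : Fin (n+1) => Bool))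
    (fun p => φ (Fin.cons p.1 p.2)) φ (fun _ => rfl), Fintype.sum_prod_type, Fintype.sum_bool,
    pow_succ]
  field_simp
  ring

lemma log_ineq0 (a b : ℝ) (ha : 0 ≤ a) (hab : a ≤ b) :
    a * Real.log a + b * Real.log b + 2 * a * Real.log 2 ≤ (a + b) * Real.log (a + b) := by
  rcases ha.eq_or_lt with rfl | ha
  · simp
  have hb : 0 < b := by linarith
  have h1 : Real.log a + Real.log 2 ≤ Real.log (a + b) := by
    rw [← Real.log_mul ha.ne' (by norm_num)]
    exact Real.log_le_log (by positivity) (by linarith)
  have h2 : a / b * Real.log 2 + Real.log b ≤ Real.log (a + b) := by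
    have ht : a / b ≤ 1 := by rwa [div_le_one hb]
    have := rpow_one_add_le_one_add_mul_self (s := 1) (by norm_num) (p := a / b)
      (by positivity) ht
    have h3 := Real.log_le_log (by positivity) this
    rw [Real.log_rpow (by norm_num)] at h3
    have h4 : Real.log (1 + a / b * 1) = Real.log (a + b) - Real.log b := by
      rw [← Real.log_div (by positivity) hb.ne']; congr 1; field_simp; ring
    rw [h4, show (1:ℝ) + 1 = 2 by norm_num] at h3
    linarith
  have h5 : b * (a / b * Real.log 2 + Real.log b) ≤ b * Real.log (a + b) :=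
    mul_le_mul_of_nonneg_left h2 hb.le
  have h6 : b * (a / b * Real.log 2 + Real.log b) = a * Real.log 2 + b * Real.log b := by
    field_simp
  have h7 := mul_le_mul_of_nonneg_left h1 ha.le
  nlinarith

lemma log_ineq (a b : ℝ) (ha : 0 ≤ a) (hb : 0 ≤ b) :
    -2 * ((a + b) / 2 * Real.log ((a + b) / 2)) ≤
      (-2 * (a * Real.log a) + -2 * (b * Real.log b)) / 2 + Real.log 2 * |a - b| := by
  have e : (a + b) / 2 * Real.log ((a + b) / 2) =
      ((a + b) * Real.log (a + b) - (a + b) * Real.log 2) / 2 := by
    rcases (add_nonneg ha hb).eq_or_lt with h | h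
    · rw [← h]; simp
    · rw [Real.log_div h.ne' (by norm_num)]; ring
  rw [e]
  rcases le_total a b with h | h
  · have := log_ineq0 a b ha h
    rw [abs_of_nonpos (by linarith)]; nlinarith
  · have := log_ineq0 b a hb h
    rw [abs_of_nonneg (by linarith), add_comm a b]; nlinarith

/-- edge isoperimetric inequality on the cube -/
theorem iso : ∀ (n : ℕ) (S : Cube n → Prop),
    -2 * (pr S * Real.log (pr S)) ≤ Real.log 2 * bd S := by
  intro n
  induction n with
  | zero =>
    intro S
    have : pr S = 0 ∨ pr S = 1 := by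
      unfold pr avg
      simp only [univ_unique, sum_singleton, pow_zero, div_one]
      unfold ind; split_ifs <;> simp
    rcases this with h | h <;> simp [h, bd]
  | succ n ih =>
    intro S
    let S0 : Cube n → Prop := fun x => S (Fin.cons false x)
    let S1 : Cube n → Prop := fun x => S (Fin.cons true x)
    have e1 : pr S = (pr S0 + pr S1) / 2 := avg_succ _
    have e2 : bd S = pr (fun x => ¬ (S1 x ↔ S0 x)) + (bd S0 + bd S1) / 2 := by
      unfold bd
      rw [Fin.sum_univ_succ, ← Finset.sum_add_distrib, Finset.sum_div]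
      congr 1
      · unfold pr; rw [avg_succ]
        simp only [Fin.update_cons_zero, S0, S1]; ring
      · refine Finset.sum_congr rfl fun k _ => ?_
        unfold pr; rw [avg_succ]
        simp only [← Fin.cons_update, S0, S1]
    have e3 : |pr S0 - pr S1| ≤ pr (fun x => ¬ (S1 x ↔ S0 x)) := by
      have a1 : pr S0 ≤ avg (fun x => ind (S1 x) + ind (¬ (S1 x ↔ S0 x))) :=
        avg_mono fun x => ind_le_add (by tauto)
      have a2 : pr S1 ≤ avg (fun x => ind (S0 x) + ind (¬ (S1 x ↔ S0 x))) :=
        avg_mono fun x => ind_le_add (by tauto)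
      rw [avg_add] at a1 a2
      unfold pr at *
      rw [abs_le]; constructor <;> linarith
    have h0 := ih S0
    have h1 := ih S1
    have h2 := log_ineq (pr S0) (pr S1) (pr_nonneg _) (pr_nonneg _)
    have l2 : 0 < Real.log 2 := Real.log_pos (by norm_num)
    rw [e1, e2]
    nlinarith [mul_le_mul_of_nonneg_left e3 l2.le]

lemma iso' (S : Cube n → Prop) (L : ℕ) (h : pr S ≤ 1 / 2 ^ L) : 2 * pr S * L ≤ bd S := by
  have l2 : 0 < Real.log 2 := Real.log_pos (by norm_num)
  have h1 := iso n S
  rcases (pr_nonneg S).eq_or_lt with h0 | h0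
  · rw [← h0] at h1 ⊢
    simp only [zero_mul, mul_zero] at h1 ⊢
    exact nonneg_of_mul_nonneg_right h1 l2 |> fun t => by nlinarith
  · have h2 := Real.log_le_log h0 h
    rw [Real.log_div (by norm_num) (by positivity), Real.log_one, Real.log_pow] at h2
    have h3 : Real.log 2 * (2 * pr S * L) ≤ Real.log 2 * bd S := by nlinarith
    exact le_of_mul_le_mul_left h3 l2

end Pool.Agent.H157Z.Mono
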