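import Pool.Agent.H157Z.Mono.Hybrid
import Pool.Agent.H157Z.Mono.Iso

set_option autoImplicit false
open Finset Function Classical

namespace Pool.Agent.H157Z.Mono

variable {n : ℕ}

/-- monotone zero-one valued functions -/
structure MB (F : Cube n → ℝ) : Prop where
  h01 : ∀ x, F x = 0 ∨ F x = 1
  mono : Monotone F

/-- `i` is pivotal at `x` -/
def Sens (F : Cube n → ℝ) (i : Fin n) (x : Cube n) : Prop :=
  F (update x i true) = 1 ∧ F (update x i false) = 0

variable {F : Cube n → ℝ}

lemma MB.nonneg (hF : MB F) (x : Cube n) : 0 ≤ F x := by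
  rcases hF.h01 x with h | h <;> simp [h]
lemma MB.le_one (hF : MB F) (x : Cube n) : F x ≤ 1 := by
  rcases hF.h01 x with h | h <;> simp [h]
lemma MB.one_of_le (hF : MB F) {x y : Cube n} (h : x ≤ y) (hx : F x = 1) : F y = 1 :=
  le_antisymm (hF.le_one y) (hx ▸ hF.mono h)
lemma MB.zero_of_le (hF : MB F) {x y : Cube n} (h : x ≤ y) (hy : F y = 0) : F x = 0 :=
  le_antisymm (hy ▸ hF.mono h) (hF.nonneg x)
lemma MB.zero_of_ne (hF : MB F) {x : Cube n} (h : F x ≠ 1) : F x = 0 :=
  (hF.h01 x).resolve_right h
lemma MB.one_of_ne (hF : MB F) {x : Cube n} (h : F x ≠ 0) : F x = 1 :=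
  (hF.h01 x).resolve_left h

lemma upd_le (x : Cube n) (i : Fin n) : update x i false ≤ update x i true := by
  intro j; by_cases h : j = i
  · subst h; simp
  · simp [update_of_ne h]

lemma MB.D_eq (hF : MB F) (i : Fin n) : D i F = fun x => ind (Sens F i x) := by
  funext x
  have hm := hF.mono (upd_le x i)
  unfold D
  by_cases h : Sens F i x
  · rw [ind_pos h, h.1, h.2]; norm_num
  · rw [ind_neg h]
    unfold Sens at h
    rcases hF.h01 (update x i true) with a | a <;> rcases hF.h01 (update x i false) with b | b
    · rw [a, b]; norm_num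
    · rw [a, b] at hm; norm_num at hm
    · exact absurd ⟨a, b⟩ h
    · rw [a, b]; norm_num

lemma sens_update (i : Fin n) (x : Cube n) (b : Bool) : Sens F i (update x i b) ↔ Sens F i x := by
  simp [Sens]

lemma ind_ne_zero {p : Prop} : ind p ≠ 0 ↔ p := by
  by_cases h : p <;> simp [ind, h]

lemma ind_inj {p q : Prop} : ind p = ind q ↔ (p ↔ q) := by
  by_cases h : p <;> by_cases h' : q <;> simp [ind, h, h']

lemma MB.sens_indep (hF : MB F) {i y : Fin n} (h : D i (D y F) = 0) (x : Cube n) (b : Bool) :
    Sens F y (update x i b) ↔ Sens F y x := by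
  have := eq_update_of_D h x b
  rw [hF.D_eq] at this
  exact ind_inj.mp this

/-- on a block of simultaneously pivotal coordinates the function is an AND or an OR -/
lemma MB.block_iterD (hF : MB F) (A : Finset (Fin n)) (hA : A.Nonempty) (z : Cube n)
    (h : ∀ a ∈ A, Sens F a z) : iterD A.toList F z ≠ 0 := by
  have := iterD_point A.toList A.nodup_toList (by simpa using hA.ne_empty) F z (1 - F z)
    (2 * F z - 1) ?_
  · intro h0
    rw [h0] at this
    rcases hF.h01 z with a | a <;> rw [a] at this <;> norm_num at this
  · intro x hx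
    simp only [Finset.mem_toList] at hx ⊢
    split_ifs with hh
    · have : x = z := by
        funext i; by_cases hi : i ∈ A
        · exact hh i hi
        · exact hx i hi
      rw [this]; ring
    · push Not at hh
      obtain ⟨a, ha, hxa⟩ := hh
      have ez : ∀ c ∈ A, ∀ b, z c = b → update z c b = z := fun c _ b hb => by rw [← hb]; simp
      rcases hF.h01 z with hz | hz
      · have hall : ∀ c ∈ A, z c = false := by
          intro c hc; by_contra hne
          have := (h c hc).1
          rw [ez c hc true (by simpa using hne), hz] at this; norm_num at this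
        have : update z a true ≤ x := by
          intro j; by_cases hj : j = a
          · subst hj; rw [hall j ha] at hxa; simp at hxa; simp [hxa]
          · rw [update_of_ne hj]
            by_cases hjA : j ∈ A
            · rw [hall j hjA]; exact Bool.false_le _
            · rw [hx j hjA]
        rw [hF.one_of_le this (h a ha).1, hz]; ring
      · have hall : ∀ c ∈ A, z c = true := by
          intro c hc; by_contra hne
          have := (h c hc).2
          rw [ez c hc false (by simpa using hne), hz] at this; norm_num at this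
        have : x ≤ update z a false := by
          intro j; by_cases hj : j = a
          · subst hj; rw [hall j ha] at hxa; simp at hxa; simp [hxa]
          · rw [update_of_ne hj]
            by_cases hjA : j ∈ A
            · rw [hall j hjA]; exact Bool.le_true _
            · rw [hx j hjA]
        rw [hF.zero_of_le this (h a ha).2, hz]; ring

lemma MB.block_card (hF : MB F) {d : ℕ} (hd : LowDeg d F) (A : Finset (Fin n)) (z : Cube n)
    (h : ∀ a ∈ A, Sens F a z) : A.card ≤ d := by
  rcases A.eq_empty_or_nonempty with rfl | hA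
  · simp
  by_contra hh
  have := (iterD_lowDeg A.toList d F hd).1 (by simpa using hh)
  exact hF.block_iterD A hA z h (by rw [this]; rfl)

/-- every point has at most `m` pivotal coordinates in `Y` -/
def SY (F : Cube n → ℝ) (Y : Finset (Fin n)) (m : ℕ) : Prop :=
  ∀ z, (Y.filter fun y => Sens F y z).card ≤ m

lemma MB.SY_deg (hF : MB F) {d : ℕ} (hd : LowDeg d F) (Y : Finset (Fin n)) : SY F Y d :=
  fun z => hF.block_card hd _ z fun _ ha => (mem_filter.mp ha).2

lemma sum_sens_le {Y : Finset (Fin n)} {m : ℕ} (h : SY F Y m) :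
    ∑ y ∈ Y, pr (Sens F y) ≤ m := by
  unfold pr
  rw [← avg_sum, ← avg_const (n := n) (m:ℝ)]
  refine avg_mono fun x => ?_
  rw [sum_ind]; exact_mod_cast h x

lemma MB.sens_ge (hF : MB F) {e : ℕ} (hd : LowDeg (e+1) F) {y : Fin n} (hy : D y F ≠ 0) :
    1 / 2 ^ e ≤ pr (Sens F y) := by
  refine (supp_ge e (hd y) hy).trans (pr_mono fun x hx => ?_)
  rw [hF.D_eq] at hx; exact ind_ne_zero.mp hx

lemma flp_cases (i : Fin n) (x : Cube n) :
    (x = update x i true ∧ flp i x = update x i false) ∨
    (x = update x i false ∧ flp i x = update x i true) := by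
  have e1 : x = update x i (x i) := by simp
  unfold flp
  cases hx : x i
  · right; rw [hx] at e1; exact ⟨e1, rfl⟩
  · left; rw [hx] at e1; exact ⟨e1, rfl⟩

lemma MB.sens_of_ne (hF : MB F) {i : Fin n} {x : Cube n} (h : F (flp i x) ≠ F x) :
    Sens F i x := by
  have hm := hF.mono (upd_le x i)
  have : F (update x i true) ≠ F (update x i false) := by
    rcases flp_cases i x with ⟨a, b⟩ | ⟨a, b⟩
    · rw [← a, ← b]; exact h.symm
    · rw [← a, ← b]; exact h
  unfold Sens
  rcases hF.h01 (update x i true) with a | a <;> rcases hF.h01 (update x i false) with b | b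
  · exact absurd (a.trans b.symm) this
  · rw [a, b] at hm; norm_num at hm
  · exact ⟨a, b⟩
  · exact absurd (a.trans b.symm) this

/-- the number of neighbours of `y` in `Y` -/
lemma MB.nb_bound (hF : MB F) {e : ℕ} (hd : LowDeg (e+2) F) {Y : Finset (Fin n)} {m : ℕ}
    (hY : SY F Y m) (y : Fin n) :
    ((Y.filter fun i => D i (D y F) ≠ 0).card : ℝ) ≤ m * (pr (Sens F y) * 2 ^ (e+2)) := by
  have h1 : ∀ i ∈ Y.filter (fun i => D i (D y F) ≠ 0),
      1 / 2 ^ e ≤ 2 * pr (fun z => Sens F y z ∧ ¬ Sens F y (flp i z)) := by
    intro i hi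
    refine (supp_ge e (hd y i) (mem_filter.mp hi).2).trans (pr_le_two i fun x hx => ?_)
    rw [hF.D_eq] at hx
    unfold D at hx
    have hx2 : ¬ (Sens F y (update x i true) ↔ Sens F y (update x i false)) := fun hh =>
      hx (sub_eq_zero.mpr (ind_congr hh))
    rw [flp_flp]
    rcases flp_cases i x with ⟨a, b⟩ | ⟨a, b⟩ <;> rw [← a, ← b] at hx2 <;> tauto
  have h2 : ∑ i ∈ Y, pr (fun z => Sens F y z ∧ ¬ Sens F y (flp i z)) ≤
      2 * m * pr (Sens F y) := by
    unfold pr
    rw [← avg_sum, ← avg_mul]
    refine avg_mono fun z => ?_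
    by_cases hz : Sens F y z
    · rw [ind_pos hz]
      have h3 : ∀ i ∈ Y, ind (Sens F y z ∧ ¬ Sens F y (flp i z)) ≤
          ind (Sens F i (update z y true)) + ind (Sens F i (update z y false)) := by
        intro i _
        refine ind_le_add fun hh => ?_
        have hiy : i ≠ y := by
          rintro rfl; exact hh.2 ((sens_update i z _).mpr hz)
        have e : ∀ b, update (flp i z) y b = flp i (update z y b) := by
          intro b; unfold flp; rw [update_comm hiy, update_of_ne hiy]
        have h4 := hh.2
        unfold Sens at h4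
        rw [e, e, not_and_or] at h4
        rcases h4 with h4 | h4
        · left; exact hF.sens_of_ne (by rw [hz.1]; exact h4)
        · right; exact hF.sens_of_ne (by rw [hz.2]; exact h4)
      refine (Finset.sum_le_sum h3).trans ?_
      rw [Finset.sum_add_distrib, sum_ind, sum_ind]
      have a1 : ((Y.filter fun i => Sens F i (update z y true)).card : ℝ) ≤ m := by
        exact_mod_cast hY _
      have a2 : ((Y.filter fun i => Sens F i (update z y false)).card : ℝ) ≤ m := by
        exact_mod_cast hY _
      linarith
    · rw [ind_neg hz, Finset.sum_eq_zero (fun i _ => ind_neg (by tauto))]; simp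
  have h4 := Finset.card_nsmul_le_sum _ _ _ h1
  rw [nsmul_eq_mul, ← Finset.mul_sum] at h4
  have h5 : ∑ i ∈ Y.filter (fun i => D i (D y F) ≠ 0),
      pr (fun z => Sens F y z ∧ ¬ Sens F y (flp i z)) ≤
      ∑ i ∈ Y, pr (fun z => Sens F y z ∧ ¬ Sens F y (flp i z)) :=
    Finset.sum_le_sum_of_subset_of_nonneg (filter_subset _ _) fun _ _ _ => pr_nonneg _
  have h6 : (0:ℝ) < 2 ^ e := by positivity
  set c : ℝ := ((Y.filter fun i => D i (D y F) ≠ 0).card : ℝ)
  have h7 : c * (1 / 2 ^ e) ≤ 4 * m * pr (Sens F y) := by linarith
  rw [mul_one_div, div_le_iff₀ h6] at h7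
  rw [pow_add]; linarith

/-- main inequality -/
lemma MB.main_ineq (hF : MB F) {Y : Finset (Fin n)} {m : ℕ} (hY : SY F Y m) (N : ℝ) (hN : 1 ≤ N)
    (hR : ∀ y ∈ Y, ((univ.filter fun i => D i (D y F) ≠ 0).card : ℝ) + 1 ≤ N) :
    ∑ y ∈ Y, bd (Sens F y) ≤ 16 * m * Real.sqrt N := by
  let φ : Fin n → Fin n → Cube n → ℝ := fun k y x =>
    ind (Sens F y (update x k (x y)) ∧ ¬ Sens F y (update x k (!x y)))
  have H := hybrid Y F hF.nonneg hF.le_one φ (fun _ _ _ => ind_nonneg _) N hN ?_ (2 * m)
    (by positivity) ?_
  · have h1 : ∀ k, ∀ y ∈ Y,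
        pr (fun x => ¬ (Sens F y (update x k true) ↔ Sens F y (update x k false))) ≤
          2 * avg (φ k y) := by
      intro k y _
      refine pr_le_two y (q := fun x => Sens F y (update x k (x y)) ∧
        ¬ Sens F y (update x k (!x y))) fun x hx => ?_
      have hky : k ≠ y := by
        rintro rfl; apply hx; rw [sens_update, sens_update]
      have e : ∀ b, Sens F y (update (flp y x) k b) ↔ Sens F y (update x k b) := by
        intro b; unfold flp; rw [update_comm hky.symm, sens_update]
      rw [e, e, flp_self]
      cases x y <;> simp only [Bool.not_true, Bool.not_false] <;> tauto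
    unfold bd
    rw [Finset.sum_comm]
    calc _ ≤ ∑ k, ∑ y ∈ Y, 2 * avg (φ k y) :=
          Finset.sum_le_sum fun k _ => Finset.sum_le_sum (h1 k)
      _ = 2 * ∑ k, ∑ y ∈ Y, avg (φ k y) := by simp_rw [Finset.mul_sum]
      _ ≤ _ := by linarith
  · intro k y hy
    refine ⟨insert y (univ.filter fun i => D i (D y F) ≠ 0), ?_, fun i hi => ?_⟩
    · refine le_trans ?_ (hR y hy)
      exact_mod_cast Finset.card_insert_le _ _
    · simp only [mem_insert, mem_filter, mem_univ, true_and, not_or, not_not] at hi
      refine D_eq_zero_of fun x b => ind_congr ?_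
      have e : ∀ c, Sens F y (update (update x i b) k c) ↔ Sens F y (update x k c) := by
        intro c
        by_cases hik : i = k
        · subst hik; simp
        · rw [update_comm hik, hF.sens_indep hi.2]
      rw [update_of_ne (Ne.symm hi.1), e, e]
  · intro k x
    rw [hF.D_eq]
    have key : ∀ y, (Sens F y (update x k (x y)) ∧ ¬ Sens F y (update x k (!x y))) →
        Sens F k x := by
      intro y hh
      have hky : k ≠ y := by
        rintro rfl; apply hh.2; rw [sens_update]; exact (sens_update _ _ _).mp hh.1
      have e : ∀ c, update (update x k c) y (x y) = update x k c := by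
        intro c; rw [update_comm hky]; simp
      obtain ⟨⟨h1, h2⟩, h3⟩ := hh
      unfold Sens at h3 ⊢
      have le1 : ∀ c, update (update x k false) y c ≤ update (update x k true) y c := by
        intro c; rw [update_comm hky, update_comm hky]; exact upd_le _ _
      cases hxy : x y
      · rw [hxy] at h1 h2 h3 e
        simp only [Bool.not_false] at h3
        have a1 := hF.one_of_le (le1 true) h1
        have a2 : F (update (update x k true) y false) = 1 :=
          hF.one_of_ne fun h0 => h3 ⟨a1, h0⟩
        rw [e] at a2 h2; exact ⟨a2, h2⟩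
      · rw [hxy] at h1 h2 h3 e
        simp only [Bool.not_true] at h3
        have a1 := hF.zero_of_le (le1 false) h2
        have a2 : F (update (update x k false) y true) = 0 :=
          hF.zero_of_ne fun h0 => h3 ⟨h0, a1⟩
        rw [e] at a2 h1; exact ⟨h1, a2⟩
    by_cases hk : Sens F k x
    · simp only [ind_pos hk]
      have h3 : ∀ y ∈ Y, φ k y x ≤
          ind (Sens F y (update x k true)) + ind (Sens F y (update x k false)) := by
        intro y _
        refine ind_le_add fun hh => ?_
        have := hh.1
        cases hxy : x y <;> rw [hxy] at this <;> simp [this]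
      refine (Finset.sum_le_sum h3).trans ?_
      rw [Finset.sum_add_distrib, sum_ind, sum_ind]
      have a1 : ((Y.filter fun i => Sens F i (update x k true)).card : ℝ) ≤ m := by
        exact_mod_cast hY _
      have a2 : ((Y.filter fun i => Sens F i (update x k false)).card : ℝ) ≤ m := by
        exact_mod_cast hY _
      linarith
    · simp only [ind_neg hk]
      rw [Finset.sum_eq_zero (fun y _ => ind_neg (fun hh => hk (key y hh)))]; simp

end Pool.Agent.H157Z.Mono
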