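import Pool.Agent.H157Z.Mono.Block

set_option autoImplicit false
open Finset Function Classical

namespace Pool.Agent.H157Z.Mono

variable {n : ℕ}

/-- cross intersecting set pair system -/
def ISP {ι : Type*} (J : Finset ι) (A B : ι → Finset (Fin n)) (t : ℕ) : Prop :=
  (∀ j ∈ J, Disjoint (A j) (B j) ∧ (A j).card + (B j).card ≤ t) ∧
  ∀ j ∈ J, ∀ l ∈ J, j ≠ l → (A j ∩ B l).Nonempty

lemma ISP.swap {ι : Type*} {J : Finset ι} {A B : ι → Finset (Fin n)} {t : ℕ} (h : ISP J A B t) :
    ISP J B A t :=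
  ⟨fun j hj => ⟨(h.1 j hj).1.symm, by rw [add_comm]; exact (h.1 j hj).2⟩,
    fun j hj l hl hjl => by rw [inter_comm]; exact h.2 l hl j hj hjl.symm⟩

lemma ISP.half {ι : Type*} {J : Finset ι} {A B : ι → Finset (Fin n)} {t : ℕ} (h : ISP J A B t)
    (ht : 1 ≤ t) :
    ∑ j ∈ J, ((A j).card : ℝ) / 2 ^ ((A j).card + (B j).card) ≤ 4 * Real.sqrt t := by
  let φ : Fin n → ι → Cube n → ℝ := fun k j x =>
    ind (k ∈ A j ∧ (∀ a ∈ A j, a ≠ k → x a = true) ∧ ∀ b ∈ B j, x b = false)
  have H := hybrid J (fun x => ind (∃ j ∈ J, ∀ a ∈ A j, x a = true)) (fun _ => ind_nonneg _)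
    (fun _ => ind_le_one _) φ (fun _ _ _ => ind_nonneg _) t (by exact_mod_cast ht) ?_ 1
    zero_le_one ?_
  · rw [Finset.sum_comm, mul_one] at H
    refine le_trans (Finset.sum_le_sum fun j hj => ?_) H
    have h1 : ∀ k ∈ A j, 1 / 2 ^ ((A j).card + (B j).card) ≤ avg (φ k j) := by
      intro k hk
      have a1 := avg_setA (A j) true (φ := φ k j) (fun _ => ind_nonneg _)
      have a2 := avg_setA (B j) false (φ := fun x => φ k j (setA (A j) true x))
        (fun _ => ind_nonneg _)
      have a3 : (fun x => φ k j (setA (A j) true (setA (B j) false x))) = fun _ => 1 := by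
        funext x
        refine ind_pos ⟨hk, fun a ha _ => by simp [setA, ha], fun b hb => ?_⟩
        have : b ∉ A j := Finset.disjoint_right.mp (h.1 j hj).1 hb
        simp [setA, this, hb]
      rw [a3, avg_const] at a2
      rw [div_le_iff₀ (by positivity), pow_add]
      have : (0:ℝ) < 2 ^ (B j).card := by positivity
      nlinarith
    have h2 := Finset.card_nsmul_le_sum _ _ _ h1
    rw [nsmul_eq_mul, mul_one_div] at h2
    exact h2.trans (Finset.sum_le_sum_of_subset_of_nonneg (subset_univ _) fun k _ _ =>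
      avg_nonneg fun _ => ind_nonneg _)
  · intro k j hj
    refine ⟨A j ∪ B j, by exact_mod_cast (card_union_le _ _).trans (h.1 j hj).2, fun i hi => ?_⟩
    simp only [mem_union, not_or] at hi
    refine D_eq_zero_of fun x c => ind_congr ?_
    refine and_congr Iff.rfl (and_congr ?_ ?_)
    · refine forall_congr' fun a => forall_congr' fun ha => ?_
      rw [update_of_ne (by rintro rfl; exact hi.1 ha)]
    · refine forall_congr' fun a => forall_congr' fun ha => ?_
      rw [update_of_ne (by rintro rfl; exact hi.2 ha)]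
  · intro k x
    have hM : MB (fun x : Cube n => ind (∃ j ∈ J, ∀ a ∈ A j, x a = true)) := by
      refine ⟨fun x => by unfold ind; split_ifs <;> simp, fun x y hxy => ind_mono ?_⟩
      rintro ⟨j, hj, hh⟩
      exact ⟨j, hj, fun a ha => by have := hxy a; rw [hh a ha] at this; exact top_le_iff.mp this⟩
    rw [hM.D_eq, one_mul]
    refine sum_ind_le_ind _ _ _ (fun j hj hh => ⟨ind_pos ⟨j, hj, fun a ha => ?_⟩, ind_neg ?_⟩)
      fun j hj l hl a b => ?_
    · by_cases hak : a = k
      · subst hak; simp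
      · rw [update_of_ne hak]; exact hh.2.1 a ha hak
    · rintro ⟨l, hl, h2⟩
      by_cases hjl : l = j
      · subst hjl; simpa using h2 k hh.1
      · obtain ⟨c, hc⟩ := h.2 l hl j hj hjl
        have c1 := h2 c (mem_inter.mp hc).1
        have c2 := hh.2.2 c (mem_inter.mp hc).2
        by_cases hck : c = k
        · subst hck; simp at c1
        · rw [update_of_ne hck, c2] at c1; simp at c1
    · by_contra hne
      obtain ⟨c, hc⟩ := h.2 j hj l hl hne
      have c2 := b.2.2 c (mem_inter.mp hc).2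
      have hck : c ≠ k := by
        rintro rfl; exact Finset.disjoint_left.mp (h.1 l hl).1 b.1 (mem_inter.mp hc).2
      rw [a.2.1 c (mem_inter.mp hc).1 hck] at c2; simp at c2

lemma ISP.card_le {ι : Type*} {J : Finset ι} {A B : ι → Finset (Fin n)} {t : ℕ}
    (h : ISP J A B t) (ht : 1 ≤ t) (hne : ∀ j ∈ J, 1 ≤ (A j).card + (B j).card) :
    (J.card : ℝ) * Real.sqrt t ≤ 8 * 2 ^ t := by
  have h1 := h.half ht
  have h2 := h.swap.half ht
  have h3 : ∀ j ∈ J, (t:ℝ) / 2 ^ t ≤ ((A j).card : ℝ) / 2 ^ ((A j).card + (B j).card) +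
      ((B j).card : ℝ) / 2 ^ ((B j).card + (A j).card) := by
    intro j hj
    rw [add_comm (B j).card, ← add_div, ← Nat.cast_add]
    have a1 := hne j hj
    obtain ⟨s, hs⟩ := Nat.exists_eq_add_of_le (h.1 j hj).2
    set u := (A j).card + (B j).card
    rw [hs, div_le_div_iff₀ (by positivity) (by positivity), pow_add 2 u s]
    have a2 : u + s ≤ u * 2 ^ s := by
      have := Nat.lt_two_pow_self (n := s); nlinarith
    have a3 : ((u + s : ℕ) : ℝ) ≤ u * 2 ^ s := by exact_mod_cast a2
    have : (0:ℝ) < 2 ^ u := by positivity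
    nlinarith
  have h4 := Finset.card_nsmul_le_sum _ _ _ h3
  rw [nsmul_eq_mul, Finset.sum_add_distrib, ← mul_div_assoc, div_le_iff₀ (by positivity)] at h4
  have ht1 : (1:ℝ) ≤ t := by exact_mod_cast ht
  have hss : Real.sqrt t * Real.sqrt t = t := Real.mul_self_sqrt (by linarith)
  have hs0 : 0 < Real.sqrt t := Real.sqrt_pos.mpr (by linarith)
  refine le_of_mul_le_mul_right ?_ hs0
  have : (0:ℝ) < 2 ^ t := by positivity
  rw [mul_assoc, hss]
  nlinarith

lemma tuza {ι : Type*} : ∀ (t : ℕ) (J : Finset ι) (A B : ι → Finset (Fin n)), ISP J A B t →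
    ((J.biUnion fun j => A j ∪ B j).card : ℝ) * Real.sqrt (t + 1) ≤ 48 * 2 ^ t := by
  intro t
  induction t with
  | zero =>
    intro J A B h
    have : (J.biUnion fun j => A j ∪ B j) = ∅ := by
      refine Finset.eq_empty_of_forall_notMem fun x hx => ?_
      obtain ⟨j, hj, hx⟩ := mem_biUnion.mp hx
      have := (h.1 j hj).2
      have a : A j = ∅ := card_eq_zero.mp (by omega)
      have b : B j = ∅ := card_eq_zero.mp (by omega)
      simp [a, b] at hx
    rw [this]; simp
  | succ t ih =>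
    intro J A B h
    set U := J.biUnion fun j => A j ∪ B j with hU
    obtain ⟨M, hM, hmin⟩ := Finset.exists_min_image
      (J.powerset.filter fun M => U ⊆ M.biUnion fun j => A j ∪ B j) card
      ⟨J, mem_filter.mpr ⟨mem_powerset_self _, Subset.refl _⟩⟩
    obtain ⟨hMJ, hUM⟩ := mem_filter.mp hM
    have hMJ := mem_powerset.mp hMJ
    have priv : ∀ j : ι, j ∈ M → ∃ x : Fin n, x ∈ A j ∪ B j ∧ ∀ l ∈ M, l ≠ j → x ∉ A l ∪ B l := by
      intro j hj
      by_contra hh
      push Not at hh
      have := hmin (M.erase j) (mem_filter.mpr ⟨mem_powerset.mpr ((erase_subset _ _).trans hMJ),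
        fun x hx => by
          obtain ⟨l, hl, hxl⟩ := mem_biUnion.mp (hUM hx)
          by_cases hlj : l = j
          · subst hlj
            obtain ⟨l', h1, h2, h3⟩ := hh x hxl
            exact mem_biUnion.mpr ⟨l', mem_erase.mpr ⟨h2, h1⟩, h3⟩
          · exact mem_biUnion.mpr ⟨l, mem_erase.mpr ⟨hlj, hl⟩, hxl⟩⟩)
      have := card_erase_lt_of_mem hj
      omega
    rcases M.eq_empty_or_nonempty with hM0 | ⟨j0, hj0⟩
    · have : U = ∅ := by rw [hM0] at hUM; simpa using hUM
      rw [this]; simp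
    haveI : Nonempty (Fin n) := ⟨(priv j0 hj0).choose⟩
    choose! x hx using priv
    have hI : ISP M (fun j => (A j).erase (x j)) (fun j => (B j).erase (x j)) t := by
      refine ⟨fun j hj => ⟨(h.1 j (hMJ hj)).1.mono (erase_subset _ _) (erase_subset _ _), ?_⟩,
        fun j hj l hl hjl => ?_⟩
      · have a1 := (h.1 j (hMJ hj)).2
        have a2 : ((A j).erase (x j)).card ≤ (A j).card := card_erase_le
        have a3 : ((B j).erase (x j)).card ≤ (B j).card := card_erase_le
        rcases mem_union.mp (hx j hj).1 with a | a <;> have := card_erase_lt_of_mem a <;>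
          simp only <;> omega
      · obtain ⟨c, hc⟩ := h.2 j (hMJ hj) l (hMJ hl) hjl
        obtain ⟨c1, c2⟩ := mem_inter.mp hc
        refine ⟨c, mem_inter.mpr ⟨mem_erase.mpr ⟨?_, c1⟩, mem_erase.mpr ⟨?_, c2⟩⟩⟩
        · rintro rfl; exact (hx j hj).2 l hl hjl.symm (mem_union_right _ c2)
        · rintro rfl; exact (hx l hl).2 j hj hjl (mem_union_left _ c1)
    have h1 := ih M _ _ hI
    have h2 : ISP M A B (t+1) := ⟨fun j hj => h.1 j (hMJ hj),
      fun j hj l hl => h.2 j (hMJ hj) l (hMJ hl)⟩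
    have h3 := h2.card_le (by omega) fun j hj =>
      (card_pos.mpr ⟨_, (hx j hj).1⟩).trans_le (card_union_le _ _)
    set U' := M.biUnion fun j => (A j).erase (x j) ∪ (B j).erase (x j)
    have h4 : U ⊆ U' ∪ M.image x := by
      intro c hc
      obtain ⟨l, hl, hcl⟩ := mem_biUnion.mp (hUM hc)
      by_cases hcx : c = x l
      · exact mem_union_right _ (mem_image.mpr ⟨l, hl, hcx.symm⟩)
      · refine mem_union_left _ (mem_biUnion.mpr ⟨l, hl, ?_⟩)
        simp only [mem_union, mem_erase] at hcl ⊢; tauto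
    have h5 : (U.card : ℝ) ≤ U'.card + M.card := by
      exact_mod_cast (card_le_card h4).trans ((card_union_le _ _).trans
        (Nat.add_le_add_left card_image_le _))
    push_cast at h3 ⊢
    have h6 : Real.sqrt (t + 1 + 1) ≤ 3 / 2 * Real.sqrt (t + 1) := by
      refine Real.sqrt_le_iff.mpr ⟨by positivity, ?_⟩
      rw [mul_pow, Real.sq_sqrt (by positivity)]
      have : (0:ℝ) ≤ t := by positivity
      linarith
    have h7 : (U.card : ℝ) * Real.sqrt (t + 1 + 1) ≤
        (U'.card + M.card) * (3 / 2 * Real.sqrt (t + 1)) := by gcongr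
    rw [pow_succ] at h3 ⊢
    nlinarith

def pt (T : Finset (Fin n)) : Cube n := fun i => decide (i ∈ T)

lemma pt_mono {S T : Finset (Fin n)} (h : S ⊆ T) : pt S ≤ pt T := by
  intro i; unfold pt
  by_cases hi : i ∈ S
  · simp [hi, h hi]
  · simp [hi]

lemma pt_true (T : Finset (Fin n)) (i : Fin n) : update (pt T) i true = pt (insert i T) := by
  funext j; by_cases h : j = i
  · subst h; simp [pt]
  · simp [pt, h]

lemma pt_false (T : Finset (Fin n)) (i : Fin n) : update (pt T) i false = pt (T.erase i) := by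
  funext j; by_cases h : j = i
  · subst h; simp [pt]
  · simp [pt, h]

theorem sens_bound {F : Cube n → ℝ} (hF : MB F) {s : ℕ} (hs : SY F univ s) :
    ((univ.filter fun y => D y F ≠ 0).card : ℝ) * Real.sqrt s ≤ 48 * 4 ^ s := by
  let H : Finset (Finset (Fin n)) := univ.filter fun A => A.card ≤ s ∧ F (pt A) = 1
  let Q : Finset (Finset (Fin n)) → Prop := fun H' => ∀ B : Finset (Fin n), B.card ≤ s →
    (∀ A ∈ H', (A ∩ B).Nonempty) → ∀ A ∈ H, (A ∩ B).Nonempty
  obtain ⟨M, hM, hmin⟩ := Finset.exists_min_image (H.powerset.filter Q) card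
    ⟨H, mem_filter.mpr ⟨mem_powerset_self _, fun B _ h => h⟩⟩
  obtain ⟨hMH, hQ⟩ := mem_filter.mp hM
  have hMH := mem_powerset.mp hMH
  have ex : ∀ A : Finset (Fin n), A ∈ M → ∃ B : Finset (Fin n), B.card ≤ s ∧ Disjoint A B ∧
      ∀ A' ∈ M, A' ≠ A → (A' ∩ B).Nonempty := by
    intro A hA
    have : ¬ Q (M.erase A) := fun hq => by
      have := hmin (M.erase A) (mem_filter.mpr
        ⟨mem_powerset.mpr ((erase_subset _ _).trans hMH), hq⟩)
      have := card_erase_lt_of_mem hA
      omega
    simp only [Q, not_forall] at this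
    obtain ⟨B, b1, b2, A0, b3, b4⟩ := this
    refine ⟨B, b1, ?_, fun A' h1 h2 => b2 A' (mem_erase.mpr ⟨h2, h1⟩)⟩
    by_contra hd
    refine b4 (hQ B b1 (fun A' hA' => ?_) A0 b3)
    by_cases h2 : A' = A
    · rw [h2]; exact Finset.not_disjoint_iff_nonempty_inter.mp hd
    · exact b2 A' (mem_erase.mpr ⟨h2, hA'⟩)
  choose! B hB using ex
  have hI : ISP M id B (2 * s) := by
    refine ⟨fun A hA => ⟨(hB A hA).2.1, ?_⟩, fun A hA A' hA' h => (hB A' hA').2.2 A hA h⟩
    have := (hB A hA).1
    have := (mem_filter.mp (hMH hA)).2.1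
    simp only [id]; omega
  have h1 := tuza _ _ _ _ hI
  have hsub : (univ.filter fun y => D y F ≠ 0) ⊆ M.biUnion fun j => id j ∪ B j := by
    intro v hv
    obtain ⟨x, hx⟩ := Function.ne_iff.mp (mem_filter.mp hv).2
    rw [hF.D_eq] at hx
    have hx : Sens F v x := ind_ne_zero.mp hx
    let X : Finset (Fin n) := univ.filter fun i => x i = true
    have eX : pt X = x := by funext i; simp [pt, X]
    rw [← eX] at hx
    unfold Sens at hx
    rw [pt_true, pt_false] at hx
    obtain ⟨T, hT, hmax⟩ := Finset.exists_max_image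
      (univ.filter fun T : Finset (Fin n) => X.erase v ⊆ T ∧ F (pt T) = 0) card
      ⟨X.erase v, mem_filter.mpr ⟨mem_univ _, Subset.refl _, hx.2⟩⟩
    obtain ⟨t1, t2⟩ := (mem_filter.mp hT).2
    have one : ∀ i, i ∉ T → F (pt (insert i T)) = 1 := by
      intro i hi
      refine hF.one_of_ne fun h0 => ?_
      have := hmax (insert i T) (mem_filter.mpr ⟨mem_univ _, t1.trans (subset_insert _ _), h0⟩)
      rw [card_insert_of_notMem hi] at this; omega
    have hvT : v ∉ T := fun hvT => by
      have : insert v X ⊆ T := by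
        intro c hc
        by_cases hcv : c = v
        · rwa [hcv]
        · exact t1 (mem_erase.mpr ⟨hcv, (mem_insert.mp hc).resolve_left hcv⟩)
      have := hF.one_of_le (pt_mono this) hx.1
      rw [t2] at this; norm_num at this
    have hc : Tᶜ.card ≤ s := by
      refine le_trans (card_le_card fun i hi => ?_) (hs (pt T))
      have hi : i ∉ T := mem_compl.mp hi
      refine mem_filter.mpr ⟨mem_univ _, ?_⟩
      unfold Sens
      rw [pt_true, pt_false, erase_eq_of_notMem hi]
      exact ⟨one i hi, t2⟩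
    obtain ⟨T', hT', hmin'⟩ := Finset.exists_min_image
      (univ.filter fun T' : Finset (Fin n) => T' ⊆ insert v T ∧ F (pt T') = 1) card
      ⟨insert v T, mem_filter.mpr ⟨mem_univ _, Subset.refl _, one v hvT⟩⟩
    obtain ⟨u1, u2⟩ := (mem_filter.mp hT').2
    have hc' : T'.card ≤ s := by
      refine le_trans (card_le_card fun i hi => ?_) (hs (pt T'))
      refine mem_filter.mpr ⟨mem_univ _, ?_⟩
      unfold Sens
      rw [pt_true, pt_false, insert_eq_of_mem hi]
      refine ⟨u2, hF.zero_of_ne fun h0 => ?_⟩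
      have := hmin' (T'.erase i) (mem_filter.mpr ⟨mem_univ _, (erase_subset _ _).trans u1, h0⟩)
      have := card_erase_lt_of_mem hi
      omega
    have : ∃ A ∈ M, ¬ (A ∩ Tᶜ.erase v).Nonempty := by
      by_contra hh
      push Not at hh
      obtain ⟨c, hcc⟩ := hQ (Tᶜ.erase v) (card_erase_le.trans hc) hh T'
        (mem_filter.mpr ⟨mem_univ _, hc', u2⟩)
      obtain ⟨c1, c2⟩ := mem_inter.mp hcc
      obtain ⟨c3, c4⟩ := mem_erase.mp c2
      exact mem_compl.mp c4 ((mem_insert.mp (u1 c1)).resolve_left c3)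
    obtain ⟨A, hA, hA2⟩ := this
    refine mem_biUnion.mpr ⟨A, hA, mem_union_left _ ?_⟩
    by_contra hvA
    have : A ⊆ T := by
      intro c hc
      by_contra hcT
      exact hA2 ⟨c, mem_inter.mpr ⟨hc, mem_erase.mpr ⟨by rintro rfl; exact hvA hc,
        mem_compl.mpr hcT⟩⟩⟩
    have := hF.one_of_le (pt_mono this) (mem_filter.mp (hMH hA)).2.2
    rw [t2] at this; norm_num at this
  have h2 : ((univ.filter fun y => D y F ≠ 0).card : ℝ) ≤
      (M.biUnion fun j => id j ∪ B j).card := by exact_mod_cast card_le_card hsub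
  have h3 : Real.sqrt s ≤ Real.sqrt ((2 * s : ℕ) + 1) := Real.sqrt_le_sqrt (by
    push_cast; have : (0:ℝ) ≤ s := by positivity
    linarith)
  rw [pow_mul, show (2:ℝ) ^ 2 = 4 by norm_num] at h1
  exact le_trans (by gcongr) h1

end Pool.Agent.H157Z.Mono
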